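import Pool.Agent.H39Z.SSS.Spec

/-! The Hankel determinant bound `S_HANK`. -/

set_option autoImplicit false

namespace Pool.Agent.H705Z.Hank

open Polynomial Matrix Pool.Agent.H39Z.SSS

/-- the linear functional with moments `φ`, truncated at `n` -/
noncomputable def Phi {R : Type} [CommRing R] (n : ℕ) (φ : ℕ → R) (p : R[X]) : R :=
  ∑ m ∈ Finset.range n, p.coeff m * φ m

theorem Phi_X_pow_mul {R : Type} [CommRing R] (n : ℕ) (φ : ℕ → R) (p : R[X]) (i m : ℕ)
    (him : i + m ≤ n) (hp : ∀ l, m ≤ l → p.coeff l = 0) :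
    Phi n φ (X ^ i * p) = ∑ l : Fin m, φ (i + l) * p.coeff l := by
  obtain ⟨t, rfl⟩ : ∃ t, n = i + t := ⟨n - i, by omega⟩
  unfold Phi
  rw [Finset.sum_range_add]
  have h1 : ∑ x ∈ Finset.range i, (X ^ i * p).coeff x * φ x = 0 := by
    refine Finset.sum_eq_zero fun x hx => ?_
    rw [coeff_X_pow_mul', if_neg (by simpa using hx), zero_mul]
  rw [h1, zero_add, Fin.sum_univ_eq_sum_range (fun l => φ (i + l) * p.coeff l) m]
  symm
  refine Finset.sum_subset_zero_on_sdiff (Finset.range_subset_range.2 (by omega)) ?_ ?_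
  · intro x hx
    have hx' : m ≤ x := by
      simp only [Finset.mem_sdiff, Finset.mem_range, not_lt] at hx
      exact hx.2
    rw [add_comm i x, coeff_X_pow_mul, hp x hx', zero_mul]
  · intro x _
    rw [add_comm i x, coeff_X_pow_mul, mul_comm]

theorem Phi_C_mul {R : Type} [CommRing R] (n : ℕ) (φ : ℕ → R) (c : R) (p : R[X]) :
    Phi n φ (C c * p) = c * Phi n φ p := by
  unfold Phi
  rw [Finset.mul_sum]
  refine Finset.sum_congr rfl fun m _ => ?_
  rw [coeff_C_mul, mul_assoc]

/-- polynomial with given coefficient vector -/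
noncomputable def toP {R : Type} [CommRing R] {m : ℕ} (v : Fin m → R) : R[X] :=
  ∑ j : Fin m, C (v j) * X ^ (j : ℕ)

theorem coeff_toP {R : Type} [CommRing R] {m : ℕ} (v : Fin m → R) (j : Fin m) :
    (toP v).coeff j = v j := by
  unfold toP
  rw [Polynomial.finsetSum_coeff, Finset.sum_eq_single j]
  · simp
  · intro b _ hb
    rw [coeff_C_mul_X_pow, if_neg]
    intro h
    exact hb (Fin.ext h).symm
  · simp

theorem coeff_toP_ge {R : Type} [CommRing R] {m : ℕ} (v : Fin m → R) (l : ℕ) (hl : m ≤ l) :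
    (toP v).coeff l = 0 := by
  unfold toP
  rw [Polynomial.finsetSum_coeff]
  refine Finset.sum_eq_zero fun j _ => ?_
  rw [coeff_C_mul_X_pow, if_neg]
  have := j.2
  omega

theorem toP_ne_zero {R : Type} [CommRing R] {m : ℕ} (v : Fin m → R) (hv : v ≠ 0) : toP v ≠ 0 := by
  intro h
  apply hv
  funext j
  rw [← coeff_toP v j, h]
  simp

/-- the Pade condition -/
def Pk (n : ℕ) (φ : ℕ → ℤ) (k : ℕ) : Prop :=
  ∃ Q : ℤ[X], Q ≠ 0 ∧ Q.natDegree ≤ k ∧ ∀ j, j + k < n → Phi n φ (X ^ j * Q) = 0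

theorem pk_of_vec (n : ℕ) (φ : ℕ → ℤ) (k : ℕ) (v : Fin (k + 1) → ℤ) (hv : v ≠ 0)
    (h : ∀ j, j + k < n → ∑ l : Fin (k + 1), φ (j + l) * v l = 0) : Pk n φ k := by
  refine ⟨toP v, toP_ne_zero v hv, ?_, fun j hj => ?_⟩
  · rw [natDegree_le_iff_coeff_eq_zero]
    intro N hN
    exact coeff_toP_ge v N hN
  · rw [Phi_X_pow_mul n φ (toP v) j (k + 1) (by omega) (coeff_toP_ge v)]
    simp only [coeff_toP]
    exact h j hj

theorem pk_half (n : ℕ) (φ : ℕ → ℤ) : Pk n φ ((n + 1) / 2) := by
  set k := (n + 1) / 2 with hk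
  let M : Matrix (Fin (n - k)) (Fin (k + 1)) ℤ := Matrix.of fun j l => φ (j + l)
  have hni : ¬ Function.Injective (Matrix.toLin' M) := by
    intro hinj
    have := LinearMap.finrank_le_finrank_of_injective hinj
    simp only [Module.finrank_fintype_fun_eq_card, Fintype.card_fin] at this
    omega
  rw [← LinearMap.ker_eq_bot] at hni
  obtain ⟨v, hv, hv0⟩ := (Submodule.ne_bot_iff _).1 hni
  refine pk_of_vec n φ k v hv0 fun j hj => ?_
  have := congrFun (LinearMap.mem_ker.1 hv) ⟨j, by omega⟩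
  simpa [M, Matrix.toLin'_apply, Matrix.mulVec, dotProduct] using this

theorem not_pk_zero (n : ℕ) (φ : ℕ → ℤ) (h : ∃ j, j < n ∧ φ j ≠ 0) : ¬ Pk n φ 0 := by
  rintro ⟨Q, hQ, hd, hΦ⟩
  obtain ⟨j, hj, hφ⟩ := h
  have h1 := hΦ j (by omega)
  rw [Phi_X_pow_mul n φ Q j 1 (by omega)
    (fun l hl => coeff_eq_zero_of_natDegree_lt (by omega))] at h1
  have hc : Q.coeff 0 ≠ 0 := by
    intro h0
    apply hQ
    rw [eq_C_of_natDegree_le_zero hd, h0, map_zero]
  simp only [Finset.univ_unique, Fin.default_eq_zero, Fin.val_zero, add_zero,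
    Finset.sum_singleton, Fin.isValue] at h1
  exact (mul_ne_zero hφ hc) h1

/-- a saturated injective integer map has a left inverse -/
theorem exists_leftInv {d m : ℕ} (f : (Fin d → ℤ) →ₗ[ℤ] (Fin m → ℤ)) (hf : Function.Injective f)
    (hsat : ∀ (c : ℤ) (x : Fin m → ℤ), c ≠ 0 → c • x ∈ LinearMap.range f →
      x ∈ LinearMap.range f) :
    ∃ g : (Fin m → ℤ) →ₗ[ℤ] (Fin d → ℤ), g ∘ₗ f = LinearMap.id := by
  have htf : Module.IsTorsionFree ℤ ((Fin m → ℤ) ⧸ LinearMap.range f) := by
    refine ⟨fun r hr a b hab => ?_⟩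
    obtain ⟨a, rfl⟩ := Submodule.mkQ_surjective _ a
    obtain ⟨b, rfl⟩ := Submodule.mkQ_surjective _ b
    have hr0 : r ≠ 0 := hr.ne_zero
    simp only [Submodule.mkQ_apply] at hab ⊢
    rw [Submodule.Quotient.eq]
    refine hsat r _ hr0 ?_
    rw [smul_sub, ← Submodule.Quotient.eq, Submodule.Quotient.mk_smul,
      Submodule.Quotient.mk_smul]
    exact hab
  obtain ⟨s, hs⟩ := Module.projective_lifting_property (LinearMap.range f).mkQ
    (LinearMap.id : ((Fin m → ℤ) ⧸ LinearMap.range f) →ₗ[ℤ] _) (Submodule.mkQ_surjective _)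
  have hmem : ∀ x : Fin m → ℤ,
      (LinearMap.id - s ∘ₗ (LinearMap.range f).mkQ : (Fin m → ℤ) →ₗ[ℤ] _) x ∈
        LinearMap.range f := by
    intro x
    rw [← Submodule.Quotient.mk_eq_zero]
    have := LinearMap.congr_fun hs ((LinearMap.range f).mkQ x)
    simp only [LinearMap.comp_apply, Submodule.mkQ_apply, LinearMap.id_apply] at this
    simp only [LinearMap.sub_apply, LinearMap.id_apply, LinearMap.comp_apply,
      Submodule.mkQ_apply, Submodule.Quotient.mk_sub, this, sub_self]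
  refine ⟨(LinearEquiv.ofInjective f hf).symm.toLinearMap ∘ₗ
    LinearMap.codRestrict _ _ hmem, ?_⟩
  refine LinearMap.ext fun b => ?_
  apply hf
  simp only [LinearMap.comp_apply, LinearEquiv.coe_coe, LinearMap.id_apply]
  rw [LinearEquiv.ofInjective_symm_apply]
  have h0 : (LinearMap.range f).mkQ (f b) = 0 := by
    rw [Submodule.mkQ_apply, Submodule.Quotient.mk_eq_zero]
    exact LinearMap.mem_range_self f b
  simp only [LinearMap.codRestrict_apply, LinearMap.sub_apply, LinearMap.id_apply,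
    LinearMap.comp_apply, h0, map_zero, sub_zero]

/-- matrix of multiplication by `Q` -/
noncomputable def mulM {R : Type} [CommRing R] (Q : R[X]) (m d : ℕ) : Matrix (Fin m) (Fin d) R :=
  Matrix.of fun i j => (X ^ (j : ℕ) * Q).coeff i

theorem mulM_mulVec {R : Type} [CommRing R] (Q : R[X]) (m d : ℕ) (b : Fin d → R) (i : ℕ) :
    (Q * toP b).coeff i = ∑ j : Fin d, (X ^ (j : ℕ) * Q).coeff i * b j := by
  unfold toP
  rw [Finset.mul_sum, Polynomial.finsetSum_coeff]
  refine Finset.sum_congr rfl fun j _ => ?_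
  rw [show Q * (C (b j) * X ^ (j : ℕ)) = C (b j) * (X ^ (j : ℕ) * Q) by ring, coeff_C_mul,
    mul_comm]

theorem coeff_X_pow_mul_ge {R : Type} [CommRing R] (Q : R[X]) (k j l : ℕ) (hQ : Q.natDegree ≤ k)
    (hl : j + k < l) : (X ^ j * Q).coeff l = 0 := by
  rw [coeff_X_pow_mul', if_pos (by omega)]
  exact coeff_eq_zero_of_natDegree_lt (by omega)

theorem exists_psi (Q : ℤ[X]) (hQ : Q.IsPrimitive) (k d : ℕ) (hk : Q.natDegree ≤ k) :
    ∃ Ψ : Matrix (Fin d) (Fin (d + k)) ℤ, Ψ * mulM Q (d + k) d = 1 := by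
  have hQ0 : Q ≠ 0 := hQ.ne_zero
  have happ : ∀ (b : Fin d → ℤ) (i : Fin (d + k)),
      Matrix.toLin' (mulM Q (d + k) d) b i = (Q * toP b).coeff i := by
    intro b i
    rw [mulM_mulVec Q (d + k) d b i]
    simp [Matrix.toLin'_apply, Matrix.mulVec, dotProduct, mulM]
  have hhigh : ∀ (b : Fin d → ℤ) (i : ℕ), d + k ≤ i → (Q * toP b).coeff i = 0 := by
    intro b i hi
    rw [mulM_mulVec Q (d + k) d b i]
    refine Finset.sum_eq_zero fun j _ => ?_
    rw [coeff_X_pow_mul_ge Q k j i hk (by have := j.2; omega), zero_mul]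
  have hinj : Function.Injective (Matrix.toLin' (mulM Q (d + k) d)) := by
    rw [← LinearMap.ker_eq_bot, LinearMap.ker_eq_bot']
    intro b hb
    by_contra hb0
    apply mul_ne_zero hQ0 (toP_ne_zero b hb0)
    ext i
    by_cases hi : i < d + k
    · have := congrFun hb ⟨i, hi⟩
      rw [happ] at this
      simpa using this
    · simpa using hhigh b i (by omega)
  obtain ⟨g, hg⟩ := exists_leftInv _ hinj (by
    rintro c x hc ⟨b, hb⟩
    have hdvd : C c ∣ Q * toP b := by
      rw [C_dvd_iff_dvd_coeff]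
      intro i
      by_cases hi : i < d + k
      · have := congrFun hb ⟨i, hi⟩
        rw [happ] at this
        simp only [Pi.smul_apply, smul_eq_mul] at this
        rw [this]
        exact dvd_mul_right _ _
      · rw [hhigh b i (by omega)]
        exact dvd_zero _
    rw [← dvd_content_iff_C_dvd] at hdvd
    have h2 : c ∣ (toP b).content := by
      have h3 := associated_content_mul Q (toP b)
      have h4 : c ∣ Q.content * (toP b).content := h3.dvd_iff_dvd_right.1 hdvd
      rwa [hQ.content_eq_one, one_mul] at h4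
    rw [dvd_content_iff_C_dvd, C_dvd_iff_dvd_coeff] at h2
    have h5 : ∀ j : Fin d, ∃ e, b j = c * e := fun j => by
      have := h2 j
      rwa [coeff_toP] at this
    choose e he using h5
    refine ⟨e, ?_⟩
    have h6 : b = c • e := funext fun j => by simp [he j]
    rw [h6, map_smul] at hb
    exact smul_right_injective _ hc hb)
  refine ⟨LinearMap.toMatrix' g, ?_⟩
  have := congrArg LinearMap.toMatrix' hg
  rwa [LinearMap.toMatrix'_comp, LinearMap.toMatrix'_toLin', LinearMap.toMatrix'_id] at this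

theorem sylvester_eq {R : Type} [CommRing R] (G Q : R[X]) (d k : ℕ) (hG : G.natDegree ≤ d)
    (hQ : Q.natDegree ≤ k) :
    (sylvester G Q d k).submatrix id finSumFinEquiv =
      fromCols (mulM Q (d + k) d) (mulM G (d + k) k) := by
  ext i j
  rcases j with j | j
  · simp only [submatrix_apply, id_eq, finSumFinEquiv_apply_left, sylvester, of_apply,
      Fin.addCases_left, fromCols_apply_inl, mulM, Set.mem_Icc]
    rw [coeff_X_pow_mul']
    split_ifs with h1 h2 h2
    · rfl
    · exact absurd h1.1 h2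
    · symm
      exact coeff_eq_zero_of_natDegree_lt (by omega)
    · rfl
  · simp only [submatrix_apply, id_eq, finSumFinEquiv_apply_right, sylvester, of_apply,
      Fin.addCases_right, fromCols_apply_inr, mulM, Set.mem_Icc]
    rw [coeff_X_pow_mul']
    split_ifs with h1 h2 h2
    · rfl
    · exact absurd h1.1 h2
    · symm
      exact coeff_eq_zero_of_natDegree_lt (by omega)
    · rfl

theorem resultant_prod (d k : ℕ) (g : Fin d → ℝ) (Q : ℝ[X]) (hQ : Q.natDegree ≤ k) :
    resultant (∏ l, (X - C (g l))) Q d k = ∏ l, Q.eval (g l) := by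
  have hd : (∏ l, (X - C (g l)) : ℝ[X]).natDegree = d := by
    rw [natDegree_prod_of_monic _ _ fun i _ => monic_X_sub_C _]
    simp
  have := resultant_prod_left Finset.univ (fun l => (X - C (g l) : ℝ[X])) Q k (by simp) hQ
  rw [hd] at this
  rw [this]
  refine Finset.prod_congr rfl fun l _ => ?_
  rw [natDegree_X_sub_C, resultant_X_sub_C_left _ _ _ hQ]

theorem hank : S_HANK := by
  classical
  intro n φ hφ
  have hex : ∃ k, Pk n φ k := ⟨_, pk_half n φ⟩
  obtain ⟨k, hk, hmin, hle⟩ : ∃ k, Pk n φ k ∧ (∀ j, j < k → ¬ Pk n φ j) ∧ k ≤ (n + 1) / 2 :=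
    ⟨Nat.find hex, Nat.find_spec hex, fun j hj => Nat.find_min hex hj,
      Nat.find_min' hex (pk_half n φ)⟩
  have hk1 : 1 ≤ k := by
    rcases Nat.eq_zero_or_pos k with h | h
    · subst h
      exact absurd hk (not_pk_zero n φ hφ)
    · exact h
  obtain ⟨Q₀, hQ₀, hdeg₀, hΦ₀⟩ := hk
  obtain ⟨Q, hprim, hdeg, hΦ⟩ : ∃ Q : ℤ[X], Q.IsPrimitive ∧ Q.natDegree ≤ k ∧
      ∀ j, j + k < n → Phi n φ (X ^ j * Q) = 0 := by
    refine ⟨Q₀.primPart, Q₀.isPrimitive_primPart, by rwa [natDegree_primPart], fun j hj => ?_⟩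
    have h1 := hΦ₀ j hj
    rw [Q₀.eq_C_content_mul_primPart,
      show X ^ j * (C Q₀.content * Q₀.primPart) = C Q₀.content * (X ^ j * Q₀.primPart) by ring,
      Phi_C_mul] at h1
    exact (mul_eq_zero.1 h1).resolve_left (by rwa [content_eq_zero_iff])
  obtain ⟨d, hd⟩ : ∃ d, 2 * k + d = n + 1 := ⟨n + 1 - 2 * k, by omega⟩
  refine ⟨k, d, Q, hk1, hd, hprim.ne_zero, fun g => ?_⟩
  obtain ⟨Ψ, hΨ⟩ := exists_psi Q hprim k d hdeg
  let H : Matrix (Fin k) (Fin (d + k)) ℤ := Matrix.of fun i l => φ (i + l)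
  have hHQ : H * mulM Q (d + k) d = 0 := by
    ext i j
    have hi := i.2
    have hj := j.2
    have h1 := Phi_X_pow_mul n φ (X ^ (j : ℕ) * Q) i (d + k) (by omega)
      (fun l hl => coeff_X_pow_mul_ge Q k j l hdeg (by omega))
    rw [← mul_assoc, ← pow_add, hΦ _ (by omega)] at h1
    simp only [Matrix.mul_apply, H, mulM, of_apply, Matrix.zero_apply]
    exact h1.symm
  have hHind : ∀ v : Fin k → ℤ, v ᵥ* H = 0 → v = 0 := by
    intro v hv
    by_contra hv0
    obtain ⟨k', rfl⟩ : ∃ k', k = k' + 1 := ⟨k - 1, by omega⟩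
    refine hmin k' (by omega) (pk_of_vec n φ k' v hv0 fun j hj => ?_)
    have := congrFun hv ⟨j, by omega⟩
    simp only [Matrix.vecMul, dotProduct, H, of_apply, Pi.zero_apply] at this
    rw [← this]
    refine Finset.sum_congr rfl fun l _ => ?_
    rw [mul_comm, add_comm]
  let T : Matrix (Fin d ⊕ Fin k) (Fin d ⊕ Fin k) ℤ := (fromRows Ψ H).submatrix id finSumFinEquiv
  have hT : T.det ≠ 0 := by
    intro h0
    obtain ⟨w, hw0, hw⟩ := Matrix.exists_vecMul_eq_zero_iff.2 h0
    have h1 : w ᵥ* fromRows Ψ H = 0 := by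
      funext l
      have := congrFun hw (finSumFinEquiv.symm l)
      simpa [T, Matrix.vecMul, dotProduct] using this
    rw [vecMul_fromRows] at h1
    have h2 : w ∘ Sum.inl = 0 := by
      have := congrArg (fun x => x ᵥ* mulM Q (d + k) d) h1
      simpa [Matrix.add_vecMul, Matrix.vecMul_vecMul, hΨ, hHQ] using this
    rw [h2, Matrix.zero_vecMul, zero_add] at h1
    have h3 := hHind _ h1
    apply hw0
    funext a
    rcases a with a | a
    · exact congrFun h2 a
    · exact congrFun h3 a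
  set G : ℝ[X] := ∏ l, (X - C (g l)) with hG
  have hGd : G.natDegree ≤ d := by
    rw [hG, natDegree_prod_of_monic _ _ fun i _ => monic_X_sub_C _]
    simp
  set c : ℤ →+* ℝ := Int.castRingHom ℝ with hc
  have hQd : (Q.map c).natDegree ≤ k := natDegree_map_le.trans hdeg
  have hmap : mulM (Q.map c) (d + k) d = (mulM Q (d + k) d).map c := by
    ext i j
    simp only [mulM, of_apply, map_apply]
    rw [← coeff_map, Polynomial.map_mul, Polynomial.map_pow, map_X]
  have hprod : T.map c * (sylvester G (Q.map c) d k).submatrix finSumFinEquiv finSumFinEquiv =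
      fromBlocks 1 (Ψ.map c * mulM G (d + k) k) 0 (H.map c * mulM G (d + k) k) := by
    have h1 : T.map c = ((fromRows Ψ H).map c).submatrix id finSumFinEquiv := rfl
    have h2 : (((fromRows Ψ H).map c) * sylvester G (Q.map c) d k).submatrix id finSumFinEquiv =
        ((fromRows Ψ H).map c) * (sylvester G (Q.map c) d k).submatrix id finSumFinEquiv := by
      ext i j
      simp only [submatrix_apply, Matrix.mul_apply, id_eq]
    rw [h1, Matrix.submatrix_mul_equiv, h2, sylvester_eq G _ d k hGd hQd, fromRows_map,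
      fromRows_mul_fromCols, hmap, ← Matrix.map_mul, ← Matrix.map_mul, hΨ, hHQ]
    simp
  have hHG : H.map c * mulM G (d + k) k = Matrix.of fun i j : Fin k => ∑ m ∈ Finset.range n,
      (X ^ ((i : ℕ) + j) * G : ℝ[X]).coeff m * (φ m : ℝ) := by
    ext i j
    have hi := i.2
    have hj := j.2
    have h1 := Phi_X_pow_mul n (fun m => (φ m : ℝ)) (X ^ (j : ℕ) * G) i (d + k) (by omega)
      (fun l hl => coeff_X_pow_mul_ge G d j l hGd (by omega))
    rw [← mul_assoc, ← pow_add] at h1
    simp only [Matrix.mul_apply, H, mulM, of_apply, map_apply, hc, eq_intCast]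
    exact h1.symm
  have hdet := congrArg Matrix.det hprod
  rw [det_mul, det_fromBlocks_zero₂₁, det_one, one_mul, det_submatrix_equiv_self, hHG,
    ← RingHom.mapMatrix_apply, ← RingHom.map_det] at hdet
  rw [← hdet, abs_mul]
  have hres : (sylvester G (Q.map c) d k).det = ∏ j, aeval (g j) Q := by
    have := resultant_prod d k g (Q.map c) hQd
    rw [resultant] at this
    rw [this]
    refine Finset.prod_congr rfl fun l _ => ?_
    rw [eval_map, aeval_def]
    rfl
  rw [hres]
  have h1 : (1 : ℝ) ≤ |c T.det| := by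
    have := Int.one_le_abs hT
    rw [hc, eq_intCast, ← Int.cast_abs]
    exact_mod_cast this
  exact le_mul_of_one_le_left (abs_nonneg _) h1

end Pool.Agent.H705Z.Hank
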