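import Pool.Agent.H705Z.AsHom

set_option autoImplicit false

namespace Pool.Agent.H705Z.Expo

open Polynomial

variable {k B : Type*} [CommRing k] [CommRing B] [Algebra k B]

theorem IsGaAction.inv_of_dvd' [IsDomain B] {e : B →ₐ[k] B[X]} (he : IsGaAction e) {a c : B}
    (ha : a ≠ 0) (h : C c ∣ e a) : e c = C c := by
  apply he.eq_C_of_natDegree
  have h1 : c ∣ (e a).leadingCoeff := (C_dvd_iff_dvd_coeff c (e a)).1 h _
  obtain ⟨q, hq⟩ := h1
  have hl : (e a).leadingCoeff ≠ 0 := leadingCoeff_ne_zero.2 (he.ne_zero ha)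
  have hq0 : q ≠ 0 := by
    rintro rfl
    exact hl (by rw [hq, mul_zero])
  have hc : c ≠ 0 := by
    rintro rfl
    exact hl (by rw [hq, zero_mul])
  have h2 := he.lead a
  rw [hq, map_mul] at h2
  have h3 := congrArg natDegree h2
  rw [natDegree_mul (he.ne_zero hc) (he.ne_zero hq0), natDegree_C] at h3
  omega

theorem exists_polyDer (D : Derivation ℤ B B) :
    ∃ D' : Derivation ℤ B[X] B[X], ∀ a, D' (C a) = C (D a) := by
  letI : Differential B := ⟨D⟩
  exact ⟨Differential.mapCoeffs, fun a => Differential.mapCoeffs_C a⟩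

theorem endgame [IsDomain B] [CharP B 2] {e : B →ₐ[k] B[X]} (he : IsGaAction e) {x y z t : B}
    (hrel : y * x ^ 2 = (z ^ 2 + t ^ 3) ^ 2) (hy : y ≠ 0) (ht : t ≠ 0) (hW : z ^ 2 + t ^ 3 ≠ 0)
    (Dx Dt : Derivation ℤ B B) (h1 : Dx x = 1) (h2 : Dx t = 0) (h3 : Dt t = 1)
    (hey : e y = C y) : e x = C x ∧ e z = C z ∧ e t = C t := by
  have two : (2 : B[X]) = 0 := CharTwo.two_eq_zero
  have two' : (2 : B) = 0 := CharTwo.two_eq_zero
  set W := z ^ 2 + t ^ 3 with hWdef
  have hr1 : C y * e x ^ 2 = e W ^ 2 := by rw [← hey, ← map_pow, ← map_mul, hrel, map_pow]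
  have hr2 : C y * C x ^ 2 = C W ^ 2 := by rw [← map_pow, ← map_mul, hrel, map_pow]
  have s1 : C x * e W = C W * e x := by
    apply CharTwo.sq_injective
    simp only
    rw [mul_pow, mul_pow, ← hr1, ← hr2]; ring
  obtain ⟨D', hD'⟩ := exists_polyDer Dx
  have hDW : Dx W = 0 := by
    rw [hWdef, map_add, Derivation.leibniz_pow, Derivation.leibniz_pow, h2]
    simp only [smul_eq_mul, nsmul_eq_mul]
    push_cast
    linear_combination (z * Dx z) * two'
  have s2 : e W = C x * D' (e W) + C W * D' (e x) := by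
    have := congrArg D' s1
    rw [Derivation.leibniz, Derivation.leibniz, hD', hD', h1, hDW] at this
    simp only [smul_eq_mul, map_one, map_zero] at this
    linear_combination this - (C x * D' (e W)) * two
  have s3 : C (W ^ 2) ∣ e (y * W ^ 2) := by
    refine ⟨D' (e W) ^ 2 + C y * D' (e x) ^ 2, ?_⟩
    rw [map_mul, map_pow, hey, map_pow]
    have : e W ^ 2 = (C x * D' (e W) + C W * D' (e x)) ^ 2 := by rw [← s2]
    rw [this]
    linear_combination (D' (e W) ^ 2) * hr2 + (C y * C x * D' (e W) * C W * D' (e x)) * two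
  have s4 : e (W * W) = C (W * W) := by
    have := he.inv_of_dvd' (mul_ne_zero hy (pow_ne_zero 2 hW)) s3
    rwa [pow_two] at this
  have s5 : e W = C W := (he.inv_of_mul hW hW s4).1
  have s6 : e x = C x := by
    rw [s5] at s1
    apply mul_left_cancel₀ (C_ne_zero.2 hW)
    rw [← s1]; ring
  obtain ⟨D'', hD''⟩ := exists_polyDer Dt
  have s7 : e z ^ 2 + e t ^ 3 = C W := by rw [← s5, hWdef, map_add, map_pow, map_pow]
  have hDW2 : Dt W = t ^ 2 := by
    rw [hWdef, map_add, Derivation.leibniz_pow, Derivation.leibniz_pow, h3]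
    simp only [smul_eq_mul, nsmul_eq_mul]
    push_cast
    linear_combination (z * Dt z + t ^ 2) * two'
  have s8 : e t * (e t * D'' (e t)) = C (t ^ 2) := by
    have := congrArg D'' s7
    rw [map_add, Derivation.leibniz_pow, Derivation.leibniz_pow, hD'', hDW2] at this
    simp only [smul_eq_mul, nsmul_eq_mul] at this
    push_cast at this
    linear_combination this - (e z * D'' (e z) + e t ^ 2 * D'' (e t)) * two
  have s9 : e t = C t := by
    apply he.eq_C_of_natDegree
    have h0 : e t * D'' (e t) ≠ 0 := by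
      intro h0
      rw [h0, mul_zero] at s8
      exact C_ne_zero.2 (pow_ne_zero 2 ht) s8.symm
    have := congrArg natDegree s8
    rw [natDegree_mul (he.ne_zero ht) h0, natDegree_C] at this
    omega
  refine ⟨s6, ?_, s9⟩
  apply CharTwo.sq_injective
  simp only
  rw [s9, hWdef, map_add, map_pow, map_pow] at s7
  exact add_right_cancel s7

end Pool.Agent.H705Z.Expo
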