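import Pool.Agent.H705Z.ExpGen

set_option autoImplicit false

namespace Pool.Agent.H705Z.Expo

open MvPolynomial

section a2

variable {k B : Type*} [CommRing k] [CommRing B] [Algebra k B]

theorem coeff_rhs (f : Polynomial B) (d : ℕ) :
    (f.eval₂ ((Polynomial.C : Polynomial B →+* Polynomial (Polynomial B)).comp
      (Polynomial.C : B →+* Polynomial B)) (Polynomial.C Polynomial.X + Polynomial.X)).coeff d =
      Polynomial.hasseDeriv d f := by
  rw [rhs_eq, Polynomial.taylor_coeff]
  have : Polynomial.hasseDeriv d (f.map (Polynomial.C : B →+* Polynomial B)) =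
      (Polynomial.hasseDeriv d f).map (Polynomial.C : B →+* Polynomial B) := by
    ext1 n
    simp [Polynomial.hasseDeriv_coeff]
  rw [this, Polynomial.eval_map, Polynomial.eval₂_C_X]

theorem a2_iff (e : B →ₐ[k] Polynomial B) (b : B) :
    (e b).map (e : B →+* Polynomial B) =
      (e b).eval₂ ((Polynomial.C : Polynomial B →+* Polynomial (Polynomial B)).comp
      (Polynomial.C : B →+* Polynomial B)) (Polynomial.C Polynomial.X + Polynomial.X) ↔
    ∀ d j, (e ((e b).coeff d)).coeff j = ((j + d).choose d : B) * (e b).coeff (j + d) := by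
  constructor
  · intro h d j
    have := congrArg (fun q => Polynomial.coeff q d) h
    simp only [coeff_rhs, Polynomial.coeff_map] at this
    rw [← Polynomial.hasseDeriv_coeff, ← this]
    rfl
  · intro h
    ext1 d
    rw [coeff_rhs, Polynomial.coeff_map]
    ext1 j
    rw [Polynomial.hasseDeriv_coeff, ← h]
    rfl

end a2

section fil

variable {k σ : Type*} [Field k] (w : σ → ℚ)

/-- All monomials have weight at least `m`. -/
def Fil (m : ℚ) (p : MvPolynomial σ k) : Prop := ∀ α, coeff α p ≠ 0 → m ≤ Finsupp.weight w α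

/-- The component of weight `m`. -/
noncomputable abbrev cp (m : ℚ) (p : MvPolynomial σ k) : MvPolynomial σ k :=
  weightedHomogeneousComponent w m p

theorem coeff_cp (m : ℚ) (p : MvPolynomial σ k) (α : σ →₀ ℕ) :
    coeff α (cp w m p) = if Finsupp.weight w α = m then coeff α p else 0 := by
  classical
  exact coeff_weightedHomogeneousComponent m p α

variable {w}

theorem Fil.zero (m : ℚ) : Fil w m (0 : MvPolynomial σ k) := by
  intro α h; simp at h

theorem Fil.add {m : ℚ} {p q : MvPolynomial σ k} (hp : Fil w m p) (hq : Fil w m q) :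
    Fil w m (p + q) := by
  intro α h
  rw [coeff_add] at h
  by_cases h1 : coeff α p = 0
  · rw [h1, zero_add] at h; exact hq α h
  · exact hp α h1

theorem Fil.sub {m : ℚ} {p q : MvPolynomial σ k} (hp : Fil w m p) (hq : Fil w m q) :
    Fil w m (p - q) := by
  intro α h
  rw [coeff_sub] at h
  by_cases h1 : coeff α p = 0
  · rw [h1, zero_sub, neg_ne_zero] at h; exact hq α h
  · exact hp α h1

theorem Fil.mono {m n : ℚ} {p : MvPolynomial σ k} (hp : Fil w m p) (h : n ≤ m) : Fil w n p :=
  fun α hα => h.trans (hp α hα)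

theorem Fil.cp_lt {m n : ℚ} {p : MvPolynomial σ k} (hp : Fil w m p) (h : n < m) :
    cp w n p = 0 := by
  ext α
  rw [coeff_cp]
  split_ifs with h1
  · by_contra h2
    have := hp α (by simpa using h2)
    linarith
  · simp

theorem Fil.mul {m n : ℚ} {p q : MvPolynomial σ k} (hp : Fil w m p) (hq : Fil w n q) :
    Fil w (m + n) (p * q) := by
  classical
  intro α h
  rw [coeff_mul] at h
  obtain ⟨x, hx, hx'⟩ := Finset.exists_ne_zero_of_sum_ne_zero h
  have h1 := hp x.1 (left_ne_zero_of_mul hx')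
  have h2 := hq x.2 (right_ne_zero_of_mul hx')
  rw [← Finset.HasAntidiagonal.mem_antidiagonal.1 hx, map_add]
  linarith

theorem Fil.cp_mul {m n : ℚ} {p q : MvPolynomial σ k} (hp : Fil w m p) (hq : Fil w n q) :
    cp w (m + n) (p * q) = cp w m p * cp w n q := by
  classical
  ext α
  rw [coeff_cp, coeff_mul, coeff_mul]
  split_ifs with h
  · apply Finset.sum_congr rfl
    intro x hx
    have hs : Finsupp.weight w x.1 + Finsupp.weight w x.2 = m + n := by
      rw [← h, ← Finset.HasAntidiagonal.mem_antidiagonal.1 hx, map_add]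
    rw [coeff_cp, coeff_cp]
    by_cases h1 : coeff x.1 p = 0
    · simp [h1]
    by_cases h2 : coeff x.2 q = 0
    · simp [h2]
    have h3 := hp _ h1
    have h4 := hq _ h2
    rw [if_pos (by linarith), if_pos (by linarith)]
  · symm
    apply Finset.sum_eq_zero
    intro x hx
    rw [coeff_cp, coeff_cp]
    split_ifs with h1 h2
    · exfalso; apply h
      rw [← Finset.HasAntidiagonal.mem_antidiagonal.1 hx, map_add, h1, h2]
    all_goals simp

theorem exists_fil {p : MvPolynomial σ k} (hp : p ≠ 0) :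
    ∃ α, coeff α p ≠ 0 ∧ Fil w (Finsupp.weight w α) p := by
  obtain ⟨α, hα, hmin⟩ := Finset.exists_min_image p.support (fun α => Finsupp.weight w α)
    (support_nonempty.2 hp)
  exact ⟨α, mem_support_iff.1 hα, fun β hβ => hmin β (mem_support_iff.2 hβ)⟩

theorem cp_ne_zero {p : MvPolynomial σ k} {α : σ →₀ ℕ} (h : coeff α p ≠ 0) :
    cp w (Finsupp.weight w α) p ≠ 0 := by
  intro h0
  have := coeff_cp w (Finsupp.weight w α) p α
  rw [h0, if_pos rfl] at this
  exact h this.symm

theorem fil_monomial (α : σ →₀ ℕ) (c : k) : Fil w (Finsupp.weight w α) (monomial α c) := by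
  classical
  intro β h
  rw [coeff_monomial] at h
  split_ifs at h with h1
  · rw [h1]
  · exact absurd rfl h

theorem cp_monomial (α : σ →₀ ℕ) (c : k) :
    cp w (Finsupp.weight w α) (monomial α c) = monomial α c :=
  (isWeightedHomogeneous_monomial w α c rfl).weightedHomogeneousComponent_same

theorem cp_dvd {G : MvPolynomial σ k} {m0 : ℚ} (hG : Fil w m0 G) (hG0 : cp w m0 G ≠ 0)
    {p : MvPolynomial σ k} {m : ℚ} (hp : Fil w m p) (h : G ∣ p) : cp w m0 G ∣ cp w m p := by
  obtain ⟨q, rfl⟩ := h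
  by_cases hq : q = 0
  · subst hq; simp
  obtain ⟨α, hα, hf⟩ := exists_fil (w := w) hq
  have h1 := hG.cp_mul hf
  have h2 : cp w (m0 + Finsupp.weight w α) (G * q) ≠ 0 := by
    rw [h1]; exact mul_ne_zero hG0 (cp_ne_zero hα)
  have h3 : m ≤ m0 + Finsupp.weight w α := by
    by_contra h4
    exact h2 (hp.cp_lt (not_le.1 h4))
  have h5 : Fil w (m - m0) q := hf.mono (by linarith)
  have h6 := hG.cp_mul h5
  rw [add_sub_cancel] at h6
  rw [h6]
  exact dvd_mul_right _ _

end fil

section sym

variable {k σ A R : Type*} [Field k] [CommRing A] [Algebra k A] [CommRing R] [Algebra k R]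

/-- Data of a filtered presentation and its associated graded presentation. -/
structure Pres (k σ A R : Type*) [Field k] [CommRing A] [Algebra k A] [CommRing R]
    [Algebra k R] where
  w : σ → ℚ
  G : MvPolynomial σ k
  m0 : ℚ
  p : MvPolynomial σ k →ₐ[k] A
  q : MvPolynomial σ k →ₐ[k] R
  filG : Fil w m0 G
  cpG : cp w m0 G ≠ 0
  kp : ∀ f, p f = 0 ↔ G ∣ f
  kq : ∀ f, q f = 0 ↔ cp w m0 G ∣ f
  sq : Function.Surjective q

variable (D : Pres k σ A R)

/-- `r` is the symbol of `a` in weight `m`. -/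
def Pres.Sym (a : A) (m : ℚ) (r : R) : Prop :=
  ∃ f, D.p f = a ∧ Fil D.w m f ∧ D.q (cp D.w m f) = r

variable {D}

theorem Pres.Sym.unique {a : A} {m : ℚ} {r r' : R} (h : D.Sym a m r) (h' : D.Sym a m r') :
    r = r' := by
  obtain ⟨f, h1, h2, rfl⟩ := h
  obtain ⟨f', h1', h2', rfl⟩ := h'
  have h3 : D.G ∣ f - f' := (D.kp _).1 (by rw [map_sub, h1, h1', sub_self])
  have h4 := (D.kq _).2 (cp_dvd D.filG D.cpG (h2.sub h2') h3)
  have h5 : cp D.w m (f - f') = cp D.w m f - cp D.w m f' :=
    map_sub (weightedHomogeneousComponent D.w m) f f'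
  rw [h5, map_sub] at h4
  exact sub_eq_zero.1 h4

theorem Pres.sym_zero (m : ℚ) : D.Sym 0 m 0 := ⟨0, by simp, Fil.zero m, by simp⟩

theorem Pres.Sym.add {a a' : A} {m : ℚ} {r r' : R} (h : D.Sym a m r) (h' : D.Sym a' m r') :
    D.Sym (a + a') m (r + r') := by
  obtain ⟨f, rfl, h2, rfl⟩ := h
  obtain ⟨f', rfl, h2', rfl⟩ := h'
  exact ⟨f + f', by simp, h2.add h2', by simp⟩

theorem Pres.Sym.mul {a a' : A} {m m' : ℚ} {r r' : R} (h : D.Sym a m r) (h' : D.Sym a' m' r') :
    D.Sym (a * a') (m + m') (r * r') := by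
  obtain ⟨f, rfl, h2, rfl⟩ := h
  obtain ⟨f', rfl, h2', rfl⟩ := h'
  exact ⟨f * f', by simp, h2.mul h2', by rw [h2.cp_mul h2', map_mul]⟩

theorem Pres.Sym.weaken {a : A} {m n : ℚ} {r : R} (h : D.Sym a m r) (hn : n < m) :
    D.Sym a n 0 := by
  obtain ⟨f, rfl, h2, rfl⟩ := h
  exact ⟨f, rfl, h2.mono hn.le, by rw [h2.cp_lt hn, map_zero]⟩

theorem Pres.sym_sum {ι : Type*} (s : Finset ι) (a : ι → A) (m : ℚ) (r : ι → R)
    (h : ∀ i ∈ s, D.Sym (a i) m (r i)) : D.Sym (∑ i ∈ s, a i) m (∑ i ∈ s, r i) := by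
  classical
  induction s using Finset.induction_on with
  | empty => simpa using Pres.sym_zero m
  | insert i s hi ih =>
    rw [Finset.sum_insert hi, Finset.sum_insert hi]
    exact (h i (Finset.mem_insert_self _ _)).add
      (ih fun j hj => h j (Finset.mem_insert_of_mem hj))

theorem Pres.sym_monomial (α : σ →₀ ℕ) (c : k) :
    D.Sym (D.p (monomial α c)) (Finsupp.weight D.w α) (D.q (monomial α c)) :=
  ⟨_, rfl, fil_monomial α c, by rw [cp_monomial]⟩

theorem Pres.sym_C (c : k) : D.Sym (algebraMap k A c) 0 (algebraMap k R c) := by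
  have := Pres.sym_monomial (D := D) 0 c
  simpa using this

theorem Pres.sym_X (i : σ) : D.Sym (D.p (X i)) (D.w i) (D.q (X i)) := by
  have := Pres.sym_monomial (D := D) (Finsupp.single i 1) 1
  rw [Finsupp.weight_single, one_smul] at this
  exact this

theorem Pres.sym_natCast (n : ℕ) : D.Sym (n : A) 0 (n : R) := by
  have := Pres.sym_C (D := D) (n : k)
  simpa using this

/-- Coefficientwise symbols. -/
def Pres.PSym (D : Pres k σ A R) (t : ℚ) (f : Polynomial A) (m : ℚ) (r : Polynomial R) : Prop :=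
  ∀ j : ℕ, D.Sym (f.coeff j) (m - j * t) (r.coeff j)

theorem Pres.PSym.unique {t : ℚ} {a : Polynomial A} {m : ℚ} {r r' : Polynomial R}
    (h : D.PSym t a m r) (h' : D.PSym t a m r') : r = r' := by
  ext1 j; exact (h j).unique (h' j)

theorem Pres.psym_zero (t m : ℚ) : D.PSym t 0 m 0 := fun j => by
  simpa using Pres.sym_zero (D := D) _

theorem Pres.PSym.add {t : ℚ} {a a' : Polynomial A} {m : ℚ} {r r' : Polynomial R}
    (h : D.PSym t a m r) (h' : D.PSym t a' m r') : D.PSym t (a + a') m (r + r') := fun j => by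
  rw [Polynomial.coeff_add, Polynomial.coeff_add]; exact (h j).add (h' j)

theorem Pres.PSym.mul {t : ℚ} {a a' : Polynomial A} {m m' : ℚ} {r r' : Polynomial R}
    (h : D.PSym t a m r) (h' : D.PSym t a' m' r') :
    D.PSym t (a * a') (m + m') (r * r') := fun j => by
  rw [Polynomial.coeff_mul, Polynomial.coeff_mul]
  apply Pres.sym_sum
  intro x hx
  have h1 := (h x.1).mul (h' x.2)
  have h2 : m + m' - (j : ℚ) * t = m - x.1 * t + (m' - x.2 * t) := by
    rw [← Finset.HasAntidiagonal.mem_antidiagonal.1 hx]; push_cast; ring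
  rw [h2]; exact h1

theorem Pres.PSym.weaken {t : ℚ} {a : Polynomial A} {m n : ℚ} {r : Polynomial R}
    (h : D.PSym t a m r) (hn : n < m) : D.PSym t a n 0 := fun j => by
  rw [Polynomial.coeff_zero]; exact (h j).weaken (by linarith)

theorem Pres.Sym.psym_C (t : ℚ) {a : A} {m : ℚ} {r : R} (h : D.Sym a m r) :
    D.PSym t (Polynomial.C a) m (Polynomial.C r) := fun j => by
  rw [Polynomial.coeff_C, Polynomial.coeff_C]
  split_ifs with h1
  · subst h1; simpa using h
  · exact Pres.sym_zero _

theorem Pres.psym_sum {ι : Type*} (t : ℚ) (s : Finset ι) (a : ι → Polynomial A) (m : ℚ)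
    (r : ι → Polynomial R) (h : ∀ i ∈ s, D.PSym t (a i) m (r i)) :
    D.PSym t (∑ i ∈ s, a i) m (∑ i ∈ s, r i) := by
  classical
  induction s using Finset.induction_on with
  | empty => simpa using Pres.psym_zero t m
  | insert i s hi ih =>
    rw [Finset.sum_insert hi, Finset.sum_insert hi]
    exact (h i (Finset.mem_insert_self _ _)).add
      (ih fun j hj => h j (Finset.mem_insert_of_mem hj))

theorem Pres.psym_monomial (e : A →ₐ[k] Polynomial A) (t : ℚ) (E : σ → Polynomial R)
    (hE : ∀ i, D.PSym t (e (D.p (X i))) (D.w i) (E i)) (α : σ →₀ ℕ) (c : k) :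
    D.PSym t (e (D.p (monomial α c))) (Finsupp.weight D.w α) (aeval E (monomial α c)) := by
  induction α using Finsupp.induction_linear generalizing c with
  | zero =>
    have := (Pres.sym_C (D := D) c).psym_C t
    simpa [Polynomial.algebraMap_apply] using this
  | add α β hα hβ =>
    have h1 : (monomial (α + β) c : MvPolynomial σ k) = monomial α c * monomial β 1 := by
      rw [monomial_mul, mul_one]
    rw [h1, map_mul, map_mul, map_mul, map_add]
    exact (hα c).mul (hβ 1)
  | single i n =>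
    induction n generalizing c with
    | zero =>
      have := (Pres.sym_C (D := D) c).psym_C t
      simpa [Polynomial.algebraMap_apply] using this
    | succ n ih =>
      have h1 : (monomial (Finsupp.single i (n + 1)) c : MvPolynomial σ k) =
          monomial (Finsupp.single i n) c * X i := by
        rw [X, monomial_mul, mul_one, Finsupp.single_add]
      have h2 : Finsupp.weight D.w (Finsupp.single i (n + 1)) =
          Finsupp.weight D.w (Finsupp.single i n) + D.w i := by
        rw [Finsupp.single_add, map_add, Finsupp.weight_single D.w i 1, one_smul]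
      rw [h1, map_mul, map_mul, map_mul, h2, aeval_X]
      exact (ih c).mul (hE i)

theorem Pres.psym_poly (e : A →ₐ[k] Polynomial A) (t : ℚ) (E : σ → Polynomial R)
    (hE : ∀ i, D.PSym t (e (D.p (X i))) (D.w i) (E i)) {m : ℚ} {f : MvPolynomial σ k}
    (hf : Fil D.w m f) : D.PSym t (e (D.p f)) m (aeval E (cp D.w m f)) := by
  classical
  have h1 : e (D.p f) = ∑ α ∈ f.support, e (D.p (monomial α (coeff α f))) := by
    conv_lhs => rw [f.as_sum]
    rw [map_sum, map_sum]
  have h2 : aeval E (cp D.w m f) =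
      ∑ α ∈ f.support, aeval E (cp D.w m (monomial α (coeff α f))) := by
    conv_lhs => rw [f.as_sum]
    rw [cp, map_sum, map_sum]
  rw [h1, h2]
  apply Pres.psym_sum
  intro α hα
  have h3 := hf α (mem_support_iff.1 hα)
  have h4 := Pres.psym_monomial e t E hE α (coeff α f)
  rcases h3.eq_or_lt with h5 | h5
  · rw [h5, cp_monomial]; exact h4
  · rw [(fil_monomial α _).cp_lt h5, map_zero]; exact h4.weaken h5

theorem Pres.homog [Finite σ] (adm : ∀ a : A, a ≠ 0 → ∃ m r, r ≠ 0 ∧ D.Sym a m r)
    (e : A →ₐ[k] Polynomial A) (he : IsGaAction e)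
    (hne : ∃ i, e (D.p (X i)) ≠ Polynomial.C (D.p (X i))) :
    ∃ e' : R →ₐ[k] Polynomial R, IsGaAction e' ∧
      (∃ i, e' (D.q (X i)) ≠ Polynomial.C (D.q (X i))) ∧
      ∀ b m r, D.Sym b m r → e b = Polynomial.C b → e' r = Polynomial.C r := by
  classical
  cases nonempty_fintype σ
  choose! o s hs0 hs using adm
  set S : Finset (σ × ℕ) := Finset.univ.biUnion
    (fun i => ((e (D.p (X i))).support.erase 0).image (fun j => (i, j))) with hS
  have memS : ∀ i j, (i, j) ∈ S ↔ j ≠ 0 ∧ (e (D.p (X i))).coeff j ≠ 0 := by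
    intro i j
    simp [hS]
  have hSne : S.Nonempty := by
    obtain ⟨i, hi⟩ := hne
    by_contra h0
    apply hi
    ext1 j
    rw [Polynomial.coeff_C]
    split_ifs with h1
    · rw [h1, he.1]
    · by_contra h2
      exact h0 ⟨(i, j), (memS i j).2 ⟨h1, h2⟩⟩
  obtain ⟨⟨i0, j0⟩, hij0, hmax⟩ := Finset.exists_max_image S
    (fun x => (D.w x.1 - o ((e (D.p (X x.1))).coeff x.2)) / x.2) hSne
  set t : ℚ := (D.w i0 - o ((e (D.p (X i0))).coeff j0)) / j0 with ht
  have hex : ∀ i, ∀ j : ℕ, ∃ r, D.Sym ((e (D.p (X i))).coeff j) (D.w i - j * t) r ∧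
      ((e (D.p (X i))).coeff j = 0 → r = 0) := by
    intro i j
    by_cases h0 : (e (D.p (X i))).coeff j = 0
    · exact ⟨0, by rw [h0]; exact Pres.sym_zero _, fun _ => rfl⟩
    by_cases hj : j = 0
    · subst hj
      refine ⟨D.q (X i), ?_, fun h => absurd h h0⟩
      rw [he.1]; simpa using Pres.sym_X (D := D) i
    have h1 := hmax (i, j) ((memS i j).2 ⟨hj, h0⟩)
    have hj' : (0 : ℚ) < j := by exact_mod_cast Nat.pos_of_ne_zero hj
    simp only at h1
    rw [div_le_iff₀ hj'] at h1
    have h2 : D.w i - j * t ≤ o ((e (D.p (X i))).coeff j) := by linarith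
    rcases h2.eq_or_lt with h3 | h3
    · exact ⟨_, by rw [h3]; exact hs _ h0, fun h => absurd h h0⟩
    · exact ⟨0, (hs _ h0).weaken h3, fun _ => rfl⟩
  choose r hr hr0 using hex
  set E : σ → Polynomial R := fun i =>
    ∑ j ∈ (e (D.p (X i))).support, Polynomial.monomial j (r i j) with hEdef
  have hEc : ∀ i j, (E i).coeff j = r i j := by
    intro i j
    simp only [hEdef, Polynomial.finsetSum_coeff, Polynomial.coeff_monomial]
    rw [Finset.sum_ite_eq']
    split_ifs with h1
    · rfl
    · exact (hr0 i j (Polynomial.notMem_support_iff.1 h1)).symm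
  have hE : ∀ i, D.PSym t (e (D.p (X i))) (D.w i) (E i) := fun i j => by
    rw [hEc]; exact hr i j
  have hG : aeval E (cp D.w D.m0 D.G) = 0 := by
    have h1 := Pres.psym_poly e t E hE D.filG
    rw [(D.kp D.G).2 dvd_rfl, map_zero] at h1
    exact h1.unique (Pres.psym_zero t _)
  have hker : RingHom.ker D.q.toRingHom ≤ RingHom.ker (aeval E).toRingHom := by
    intro f hf
    obtain ⟨g, rfl⟩ := (D.kq f).1 hf
    change aeval E _ = 0
    rw [map_mul, hG, zero_mul]
  set e' : R →ₐ[k] Polynomial R := AlgHom.liftOfSurjective D.q D.sq (aeval E) hker with he'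
  have he'q : ∀ f, e' (D.q f) = aeval E f := fun f =>
    AlgHom.liftOfSurjective_apply D.q D.sq (aeval E) hker f
  have key : ∀ b m r, D.Sym b m r → D.PSym t (e b) m (e' r) := by
    rintro b m r ⟨f, rfl, h2, rfl⟩
    rw [he'q]; exact Pres.psym_poly e t E hE h2
  have hgen : ∀ {T : Type _} [CommRing T] (u v : R →+* T),
      (∀ b m r, D.Sym b m r → u r = v r) → ∀ x, u x = v x := by
    intro T _ u v h x
    obtain ⟨f, rfl⟩ := D.sq x
    rw [f.as_sum, map_sum, map_sum, map_sum]
    exact Finset.sum_congr rfl fun α _ => h _ _ _ (Pres.sym_monomial α _)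
  refine ⟨e', ⟨?_, ?_⟩, ⟨i0, ?_⟩, ?_⟩
  · apply hgen ((Polynomial.constantCoeff).comp (e' : R →+* Polynomial R)) (RingHom.id R)
    intro b m r h
    have h1 := key b m r h 0
    rw [he.1] at h1
    simp only [Nat.cast_zero, zero_mul, sub_zero] at h1
    exact h1.unique h
  · intro x
    obtain ⟨f, rfl⟩ := D.sq x
    have hh : ∀ b m r, D.Sym b m r → (e' r).map (e' : R →+* Polynomial R) =
        (e' r).eval₂ ((Polynomial.C : Polynomial R →+* Polynomial (Polynomial R)).comp
        (Polynomial.C : R →+* Polynomial R)) (Polynomial.C Polynomial.X + Polynomial.X) := by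
      intro b m r h
      rw [a2_iff]
      intro d j
      have h1 := key _ _ _ (key b m r h d) j
      rw [(a2_iff e b).1 (he.2 b)] at h1
      have h2 := (Pres.sym_natCast (D := D) ((j + d).choose d)).mul (key b m r h (j + d))
      have h3 : m - (d : ℚ) * t - j * t = 0 + (m - ((j + d : ℕ) : ℚ) * t) := by
        push_cast; ring
      rw [h3] at h1
      exact h1.unique h2
    rw [f.as_sum, map_sum, map_sum, Polynomial.map_sum, Polynomial.eval₂_finsetSum]
    exact Finset.sum_congr rfl fun α _ => hh _ _ _ (Pres.sym_monomial α _)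
  · intro h
    obtain ⟨hj0, hc0⟩ := (memS i0 j0).1 hij0
    have h1 := hE i0 j0
    have hj' : (j0 : ℚ) ≠ 0 := by exact_mod_cast hj0
    have h2 : D.w i0 - j0 * t = o ((e (D.p (X i0))).coeff j0) := by
      rw [ht]; field_simp; ring
    rw [h2] at h1
    have h3 := h1.unique (hs _ hc0)
    rw [he'q, aeval_X] at h
    rw [h, Polynomial.coeff_C, if_neg hj0] at h3
    exact hs0 _ hc0 h3.symm
  · intro b m r h hb
    have h1 := key b m r h
    rw [hb] at h1
    exact h1.unique (h.psym_C t)

end sym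

end Pool.Agent.H705Z.Expo
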