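import Pool.Agent.H705Z.AsEnd

set_option autoImplicit false

namespace Pool.Agent.H705Z.Expo

open MvPolynomial

universe uk

variable {k : Type uk} [Field k]

/-- Variables: 0 is y, 1 is t, 2 is x, 3 is z. The relation `y x^2 - H(t, x, z)`. -/
noncomputable def rel (H : MvPolynomial (Fin 3) k) : MvPolynomial (Fin 4) k :=
  X 0 * X 2 ^ 2 - rename Fin.succ H

/-- The exponent of `y x^2`. -/
noncomputable def del : Fin 4 →₀ ℕ := Finsupp.single 0 1 + Finsupp.single 2 2

theorem supp_rename (H : MvPolynomial (Fin 3) k) :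
    ∀ α ∈ (rename Fin.succ H : MvPolynomial (Fin 4) k).support, α 0 = 0 := by
  classical
  intro α hα
  rw [support_rename_of_injective (Fin.succ_injective _), Finset.mem_image] at hα
  obtain ⟨β, -, rfl⟩ := hα
  exact Finsupp.mapDomain_of_notMem_range _ _ (by simp)

theorem lead_eq : (X 0 * X 2 ^ 2 : MvPolynomial (Fin 4) k) = monomial del 1 := by
  rw [del, X_pow_eq_monomial, X, monomial_mul, one_mul]

theorem deg_lt (H : MvPolynomial (Fin 3) k) :
    MonomialOrder.lex.toSyn (MonomialOrder.lex.degree (rename Fin.succ H : MvPolynomial (Fin 4) k))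
      < MonomialOrder.lex.toSyn
        (MonomialOrder.lex.degree (X 0 * X 2 ^ 2 : MvPolynomial (Fin 4) k)) := by
  classical
  have h1 : MonomialOrder.lex.degree (X 0 * X 2 ^ 2 : MvPolynomial (Fin 4) k) = del := by
    rw [lead_eq, MonomialOrder.degree_monomial, if_neg one_ne_zero]
  have h2 : (MonomialOrder.lex.degree (rename Fin.succ H : MvPolynomial (Fin 4) k)) 0 = 0 := by
    by_cases h0 : (rename Fin.succ H : MvPolynomial (Fin 4) k) = 0
    · rw [h0, MonomialOrder.degree_zero]; rfl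
    · exact supp_rename H _ (MonomialOrder.degree_mem_support h0)
  rw [h1]
  refine MonomialOrder.lex_lt_iff.2 (Finsupp.Lex.lt_iff.2 ⟨0, fun j hj => absurd hj (by simp), ?_⟩)
  change (MonomialOrder.lex.degree (rename Fin.succ H : MvPolynomial (Fin 4) k)) 0 < del 0
  rw [h2]; simp [del]

theorem deg_rel (H : MvPolynomial (Fin 3) k) : MonomialOrder.lex.degree (rel H) = del := by
  classical
  rw [rel, MonomialOrder.degree_sub_of_lt (deg_lt H), lead_eq, MonomialOrder.degree_monomial,
    if_neg one_ne_zero]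

theorem lc_rel (H : MvPolynomial (Fin 3) k) : MonomialOrder.lex.leadingCoeff (rel H) = 1 := by
  rw [rel, MonomialOrder.leadingCoeff_sub_of_lt (deg_lt H), lead_eq,
    MonomialOrder.leadingCoeff_monomial]

theorem rel_ne (H : MvPolynomial (Fin 3) k) : rel H ≠ 0 := by
  intro h
  have := lc_rel H
  rw [h, MonomialOrder.leadingCoeff_zero] at this
  exact zero_ne_one this

/-- Reduced polynomials. -/
def Red (f : MvPolynomial (Fin 4) k) : Prop := ∀ c ∈ f.support, ¬ del ≤ c

theorem Red.not_dvd {f : MvPolynomial (Fin 4) k} (hf : Red f) (h0 : f ≠ 0)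
    (H : MvPolynomial (Fin 3) k) : ¬ rel H ∣ f := by
  rintro ⟨u, rfl⟩
  have hu : u ≠ 0 := right_ne_zero_of_mul h0
  have h1 := MonomialOrder.degree_mem_support (m := MonomialOrder.lex) h0
  rw [MonomialOrder.degree_mul (rel_ne H) hu, deg_rel] at h1
  exact hf _ h1 le_self_add

theorem exists_red (H : MvPolynomial (Fin 3) k) (f : MvPolynomial (Fin 4) k) :
    ∃ g r, f = g * rel H + r ∧ Red r := by
  obtain ⟨g, r, h1, -, h2⟩ := MonomialOrder.div_single (m := MonomialOrder.lex) (b := rel H)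
    (by rw [lc_rel]; exact isUnit_one) f
  refine ⟨g, r, h1, fun c hc => ?_⟩
  have := h2 c hc
  rwa [deg_rel] at this

theorem Red.cp {f : MvPolynomial (Fin 4) k} (hf : Red f) (w : Fin 4 → ℚ) (m : ℚ) :
    Red (cp w m f) := by
  intro c hc
  apply hf
  rw [mem_support_iff, coeff_cp] at hc
  rw [mem_support_iff]
  intro h; apply hc; simp [h]

theorem finSucc_rename (H : MvPolynomial (Fin 3) k) :
    finSuccEquiv k 3 (rename Fin.succ H) = Polynomial.C H := by
  induction H using MvPolynomial.induction_on with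
  | C a => simp [finSuccEquiv_apply]
  | add u v hu hv => rw [map_add, map_add, hu, hv, map_add]
  | mul_X u i hu => rw [map_mul, map_mul, hu, rename_X, finSuccEquiv_X_succ, map_mul]

theorem prime_rel (H : MvPolynomial (Fin 3) k) (hH : ¬ X 1 ∣ H) : Prime (rel H) := by
  apply Irreducible.prime
  rw [← MulEquiv.irreducible_iff (finSuccEquiv k 3)]
  have h1 : finSuccEquiv k 3 (rel H) =
      Polynomial.C (X 1 * X 1) * Polynomial.X + Polynomial.C (-H) := by
    have h2 : (X 2 : MvPolynomial (Fin 4) k) = X (Fin.succ 1) := rfl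
    rw [rel, map_sub, map_mul, map_pow, finSuccEquiv_X_zero, h2, finSuccEquiv_X_succ,
      finSucc_rename, map_neg, map_mul]
    ring
  rw [h1]
  have h3 : IsRelPrime (X 1 : MvPolynomial (Fin 3) k) (-H) :=
    (X_prime.irreducible.isRelPrime_iff_not_dvd).2 (by rwa [dvd_neg])
  exact Polynomial.irreducible_C_mul_X_add_C (mul_ne_zero (X_ne_zero _) (X_ne_zero _))
    (h3.mul_left h3)

/-- The nontrivial line `z^4 + t + t^6`. -/
noncomputable def FF (k : Type*) [Field k] : MvPolynomial (Fin 3) k := X 2 ^ 4 + X 0 + X 0 ^ 6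

/-- Its top form. -/
noncomputable def FT (k : Type*) [Field k] : MvPolynomial (Fin 3) k := (X 2 ^ 2 + X 0 ^ 3) ^ 2

theorem not_dvd_of_eval {H : MvPolynomial (Fin 3) k}
    (h : eval (fun i => if i = 2 then (1 : k) else 0) H = 1) : ¬ X 1 ∣ H := by
  rintro ⟨u, rfl⟩
  simp at h

theorem prime_FF : Prime (rel (FF k)) := prime_rel _ (not_dvd_of_eval (by simp [FF]))

theorem prime_FT : Prime (rel (FT k)) := prime_rel _ (not_dvd_of_eval (by simp [FT]))

/-- The weights. -/
def wt (N : ℚ) : Fin 4 → ℚ := ![-12 - 2 * N, -2, N, -3]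

theorem weight_wt (N : ℚ) (α : Fin 4 →₀ ℕ) : Finsupp.weight (wt N) α =
    α 0 * (-12 - 2 * N) + α 1 * (-2) + α 2 * N + α 3 * (-3) := by
  rw [Finsupp.weight_apply, Finsupp.sum_fintype _ _ (by simp), Fin.sum_univ_four]
  simp [wt]

theorem rel_FT_eq : rel (FT k) = X 0 * X 2 ^ 2 - (X 3 ^ 2 + X 1 ^ 3) ^ 2 := by
  simp [rel, FT]

theorem hom_FT (N : ℚ) : IsWeightedHomogeneous (wt N) (rel (FT k)) (-12) := by
  rw [rel_FT_eq]
  apply IsWeightedHomogeneous.sub
  · have := (isWeightedHomogeneous_X k (wt N) 0).mul ((isWeightedHomogeneous_X k (wt N) 2).pow 2)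
    have h : wt N 0 + 2 • wt N 2 = -12 := by simp [wt]
    rwa [h] at this
  · have h1 : IsWeightedHomogeneous (wt N) (X 3 ^ 2 : MvPolynomial (Fin 4) k) (-6) := by
      have := (isWeightedHomogeneous_X k (wt N) 3).pow 2
      have h : 2 • wt N 3 = -6 := by simp [wt]; norm_num
      rwa [h] at this
    have h2 : IsWeightedHomogeneous (wt N) (X 1 ^ 3 : MvPolynomial (Fin 4) k) (-6) := by
      have := (isWeightedHomogeneous_X k (wt N) 1).pow 3
      have h : 3 • wt N 1 = -6 := by simp [wt]; norm_num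
      rwa [h] at this
    have := (h1.add h2).pow 2
    have h : 2 • (-6 : ℚ) = -12 := by norm_num
    rwa [h] at this

variable [CharP k 2]

theorem rel_FF_eq : rel (FF k) = rel (FT k) - X 1 := by
  have two : (2 : MvPolynomial (Fin 4) k) = 0 := CharTwo.two_eq_zero
  rw [rel_FT_eq]
  have : rel (FF k) = X 0 * X 2 ^ 2 - (X 3 ^ 4 + X 1 + X 1 ^ 6) := by simp [rel, FF]
  rw [this]
  linear_combination (X 3 ^ 2 * X 1 ^ 3) * two

omit [CharP k 2] in
theorem fil_X1 (N : ℚ) : Fil (wt N) (-2) (X 1 : MvPolynomial (Fin 4) k) := fun α h =>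
  le_of_eq ((isWeightedHomogeneous_X k (wt N) 1) h).symm

theorem fil_FF (N : ℚ) : Fil (wt N) (-12) (rel (FF k)) := by
  rw [rel_FF_eq]
  exact Fil.sub (fun α h => le_of_eq (hom_FT N h).symm) ((fil_X1 N).mono (by norm_num))

theorem cp_FF (N : ℚ) : cp (wt N) (-12) (rel (FF k)) = rel (FT k) := by
  have h1 : cp (wt N) (-12) (rel (FT k) - X 1) =
      cp (wt N) (-12) (rel (FT k)) - cp (wt N) (-12) (X 1) :=
    map_sub (weightedHomogeneousComponent (wt N) (-12)) _ _
  rw [rel_FF_eq, h1, (fil_X1 N).cp_lt (by norm_num), sub_zero]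
  exact (hom_FT N).weightedHomogeneousComponent_same

omit [CharP k 2] in
theorem exists_RT : ∃ (R : Type uk) (_ : CommRing R) (_ : Algebra k R) (_ : IsDomain R)
    (q : MvPolynomial (Fin 4) k →ₐ[k] R), Function.Surjective q ∧
      ∀ f, q f = 0 ↔ rel (FT k) ∣ f := by
  have : (Ideal.span {rel (FT k)}).IsPrime := (Ideal.span_singleton_prime (rel_ne _)).2 prime_FT
  refine ⟨MvPolynomial (Fin 4) k ⧸ Ideal.span {rel (FT k)}, inferInstance, inferInstance,
    inferInstance, Ideal.Quotient.mkₐ k _, Ideal.Quotient.mkₐ_surjective k _, fun f => ?_⟩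
  rw [Ideal.Quotient.mkₐ_eq_mk, Ideal.Quotient.eq_zero_iff_mem, Ideal.mem_span_singleton]

omit [CharP k 2] in
theorem qT_ne {R : Type*} [CommRing R] [Algebra k R] {q : MvPolynomial (Fin 4) k →ₐ[k] R}
    (kq : ∀ f, q f = 0 ↔ rel (FT k) ∣ f)
    {f : MvPolynomial (Fin 4) k} (hf : Red f) (h0 : f ≠ 0) : q f ≠ 0 :=
  fun h => hf.not_dvd h0 _ ((kq f).1 h)

omit [CharP k 2] in
theorem red_rename (H : MvPolynomial (Fin 3) k) : Red (rename Fin.succ H) := by
  intro c hc h
  have h1 := supp_rename H c hc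
  have h2 := h 0
  rw [h1] at h2
  simp [del] at h2

omit [CharP k 2] in
theorem red_X0 : Red (X 0 : MvPolynomial (Fin 4) k) := by
  intro c hc h
  rw [support_X, Finset.mem_singleton] at hc
  have h2 := h 2
  rw [hc] at h2
  simp [del] at h2

theorem exists_der {R : Type*} [CommRing R] [Algebra k R] {q : MvPolynomial (Fin 4) k →ₐ[k] R}
    (sq : Function.Surjective q) (kq : ∀ f, q f = 0 ↔ rel (FT k) ∣ f)
    (i : Fin 4) (hi : i ≠ 0) : ∃ D : Derivation ℤ R R, ∀ f, D (q f) = q (pderiv i f) := by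
  have two : (2 : MvPolynomial (Fin 4) k) = 0 := CharTwo.two_eq_zero
  have h1 : pderiv i (rel (FT k)) = 0 := by
    rw [rel_FT_eq, map_sub, Derivation.leibniz, Derivation.leibniz_pow, Derivation.leibniz_pow,
      pderiv_X_of_ne hi.symm]
    simp only [smul_eq_mul, nsmul_eq_mul]
    push_cast
    rw [two]; simp
  have hd : ∀ f, q f = 0 → q (pderiv i f) = 0 := by
    intro f hf
    obtain ⟨u, rfl⟩ := (kq f).1 hf
    rw [kq, Derivation.leibniz, h1]
    simp
  refine ⟨(Derivation.liftOfSurjective sq hd).restrictScalars ℤ,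
    fun f => ?_⟩
  rw [Derivation.restrictScalars_apply, Derivation.liftOfSurjective_apply]

theorem RT_rigid {R : Type*} [CommRing R] [Algebra k R] [IsDomain R]
    {q : MvPolynomial (Fin 4) k →ₐ[k] R}
    (sq : Function.Surjective q) (kq : ∀ f, q f = 0 ↔ rel (FT k) ∣ f)
    {e : R →ₐ[k] Polynomial R} (he : IsGaAction e)
    (hy : e (q (X 0)) = Polynomial.C (q (X 0))) (i : Fin 4) :
    e (q (X i)) = Polynomial.C (q (X i)) := by
  have : CharP R 2 := charP_of_injective_algebraMap (algebraMap k R).injective 2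
  obtain ⟨Dx, hDx⟩ := exists_der sq kq 2 (by decide)
  obtain ⟨Dt, hDt⟩ := exists_der sq kq 1 (by decide)
  have hrel : q (X 0) * q (X 2) ^ 2 = (q (X 3) ^ 2 + q (X 1) ^ 3) ^ 2 := by
    have := (kq (rel (FT k))).2 dvd_rfl
    rw [rel_FT_eq, map_sub, sub_eq_zero] at this
    simpa using this
  have hW : q (X 3) ^ 2 + q (X 1) ^ 3 ≠ 0 := by
    have h1 : (X 2 ^ 2 + X 0 ^ 3 : MvPolynomial (Fin 3) k) ≠ 0 := by
      intro h
      have := congrArg (eval (fun i => if i = 2 then (1 : k) else 0)) h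
      simp at this
    have h2 := qT_ne kq (red_rename (X 2 ^ 2 + X 0 ^ 3 : MvPolynomial (Fin 3) k))
      (fun h => h1 (rename_injective _ (Fin.succ_injective _) (by rw [h, map_zero])))
    simpa using h2
  have ht : q (X 1) ≠ 0 := by
    have h2 := qT_ne kq (red_rename (X 0 : MvPolynomial (Fin 3) k)) (by simp)
    simpa using h2
  obtain ⟨h1, h2, h3⟩ := endgame he hrel (qT_ne kq red_X0 (X_ne_zero _)) ht hW Dx Dt
    (by rw [hDx]; simp) (by rw [hDx, pderiv_X_of_ne (by decide)]; simp) (by rw [hDt]; simp) hy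
  fin_cases i
  · exact hy
  · exact h3
  · exact h1
  · exact h2

theorem asanuma_rigid {A : Type*} [CommRing A] [Algebra k A]
    (p : MvPolynomial (Fin 4) k →ₐ[k] A) (hp : Function.Surjective p)
    (kp : ∀ f, p f = 0 ↔ rel (FF k) ∣ f) (e : A →ₐ[k] Polynomial A) (he : IsGaAction e)
    (b : A) (hb : e b = Polynomial.C b) (hb' : ∀ f, p (rename Fin.succ f) ≠ b) (i : Fin 4) :
    e (p (X i)) = Polynomial.C (p (X i)) := by
  classical
  by_contra hne
  obtain ⟨R, _, _, _, q, sq, kq⟩ := exists_RT (k := k)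
  obtain ⟨f, rfl⟩ := hp b
  obtain ⟨g, r, hfr, hr⟩ := exists_red (FF k) f
  have hpr : p f = p r := by rw [hfr, map_add, map_mul, (kp _).2 dvd_rfl, mul_zero, zero_add]
  have h0 : ∃ α ∈ r.support, α 0 ≠ 0 := by
    by_contra h
    push Not at h
    obtain ⟨r', hr'⟩ := exists_rename_eq_of_vars_subset_range r Fin.succ (Fin.succ_injective _)
      (by
        intro j hj
        obtain ⟨α, hα, hj'⟩ := (mem_vars_iff_mem_support j).1 hj
        have : j ≠ 0 := by
          rintro rfl
          exact (Finsupp.mem_support_iff.1 hj') (h α hα)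
        exact Fin.exists_succ_eq.2 this)
    exact hb' r' (by rw [hr', hpr])
  obtain ⟨α0, hα0, hα0'⟩ := h0
  set M : ℕ := ∑ α ∈ r.support, (2 * α 1 + 3 * α 3) with hM
  set N : ℚ := M + 1 with hN
  let D : Pres k (Fin 4) A R :=
    { w := wt N, G := rel (FF k), m0 := -12, p := p, q := q, filG := fil_FF N
      cpG := by rw [cp_FF]; exact rel_ne _
      kp := kp
      kq := fun f => by rw [cp_FF]; exact kq f
      sq := sq }
  have adm : ∀ a : A, a ≠ 0 → ∃ m s, s ≠ 0 ∧ D.Sym a m s := by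
    intro a ha
    obtain ⟨f', rfl⟩ := hp a
    obtain ⟨g', r', hfr', hr'⟩ := exists_red (FF k) f'
    have hpr' : p f' = p r' := by
      rw [hfr', map_add, map_mul, (kp _).2 dvd_rfl, mul_zero, zero_add]
    have hr0 : r' ≠ 0 := by rintro rfl; exact ha (by rw [hpr', map_zero])
    obtain ⟨α, hα, hf⟩ := exists_fil (w := wt N) hr0
    exact ⟨_, _, qT_ne kq (hr'.cp _ _) (cp_ne_zero hα), r', hpr'.symm, hf, rfl⟩
  obtain ⟨e', he', ⟨j, hj⟩, hinv⟩ := D.homog adm e he ⟨i, hne⟩
  have hr0 : r ≠ 0 := by rintro rfl; simp at hα0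
  obtain ⟨α, hα, hf⟩ := exists_fil (w := wt N) hr0
  have hs : D.Sym (p f) (Finsupp.weight (wt N) α) (q (cp (wt N) (Finsupp.weight (wt N) α) r)) :=
    ⟨r, hpr.symm, hf, rfl⟩
  have h1 := hinv _ _ _ hs hb
  have hN0 : (0 : ℚ) ≤ M := Nat.cast_nonneg M
  have hm : Finsupp.weight (wt N) α ≤ -N := by
    refine (hf α0 (mem_support_iff.1 hα0)).trans ?_
    have h2 : α0 2 ≤ 1 := by
      by_contra h3
      apply hr α0 hα0
      intro l
      fin_cases l <;> simp [del] <;> omega
    have h4 : (1 : ℚ) ≤ α0 0 := by exact_mod_cast Nat.one_le_iff_ne_zero.2 hα0'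
    have h5 : (α0 2 : ℚ) ≤ 1 := by exact_mod_cast h2
    have h6 : (0 : ℚ) ≤ α0 1 := Nat.cast_nonneg _
    have h7 : (0 : ℚ) ≤ α0 3 := Nat.cast_nonneg _
    rw [weight_wt]
    nlinarith
  have hdvd : X 0 ∣ cp (wt N) (Finsupp.weight (wt N) α) r := by
    rw [(cp (wt N) (Finsupp.weight (wt N) α) r).as_sum]
    apply Finset.dvd_sum
    intro β hβ
    rw [X_dvd_monomial]
    right
    intro hβ0
    rw [mem_support_iff, coeff_cp] at hβ
    have h2 : Finsupp.weight (wt N) β = Finsupp.weight (wt N) α := by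
      by_contra h3; exact hβ (if_neg h3)
    have h3 : β ∈ r.support := by
      rw [mem_support_iff]; intro h4; apply hβ; simp [h4]
    have h4 : 2 * β 1 + 3 * β 3 ≤ M :=
      Finset.single_le_sum (f := fun α : Fin 4 →₀ ℕ => 2 * α 1 + 3 * α 3)
        (fun _ _ => Nat.zero_le _) h3
    have h5 : (2 * β 1 + 3 * β 3 : ℚ) ≤ M := by exact_mod_cast h4
    have h6 : (0 : ℚ) ≤ β 2 := Nat.cast_nonneg _
    rw [← h2, weight_wt, hβ0] at hm
    simp only [Nat.cast_zero, zero_mul, zero_add] at hm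
    nlinarith
  obtain ⟨u, hu⟩ := hdvd
  have hne0 := qT_ne kq (hr.cp (wt N) (Finsupp.weight (wt N) α)) (cp_ne_zero hα)
  rw [hu, map_mul] at h1 hne0
  have h2 := (he'.inv_of_mul (left_ne_zero_of_mul hne0) (right_ne_zero_of_mul hne0) h1).1
  exact hj (RT_rigid sq kq he' h2 j)

omit [CharP k 2] in
theorem transl_ga {n : ℕ} (j : Fin n) : IsGaAction (aeval (fun i : Fin n =>
    Polynomial.C (X i) + if i = j then Polynomial.X else 0) :
      MvPolynomial (Fin n) k →ₐ[k] Polynomial (MvPolynomial (Fin n) k)) := by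
  constructor
  · intro b
    induction b using MvPolynomial.induction_on with
    | C a => simp
    | add u v hu hv => rw [map_add, Polynomial.coeff_add, hu, hv]
    | mul_X u i hu =>
      rw [map_mul, Polynomial.mul_coeff_zero, hu, aeval_X]
      split_ifs <;> simp
  · intro b
    induction b using MvPolynomial.induction_on with
    | C a => simp
    | add u v hu hv => rw [map_add, Polynomial.map_add, Polynomial.eval₂_add, hu, hv]
    | mul_X u i hu =>
      rw [map_mul, Polynomial.map_mul, Polynomial.eval₂_mul, hu, aeval_X]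
      congr 1
      split_ifs with h
      · simp [h, add_assoc]
      · simp [h]

theorem asanuma_not_poly {A : Type*} [CommRing A] [Algebra k A]
    (p : MvPolynomial (Fin 4) k →ₐ[k] A) (hp : Function.Surjective p)
    (kp : ∀ f, p f = 0 ↔ rel (FF k) ∣ f) : ¬ Nonempty (A ≃ₐ[k] MvPolynomial (Fin 3) k) := by
  rintro ⟨φ⟩
  set p' : MvPolynomial (Fin 4) k →ₐ[k] MvPolynomial (Fin 3) k := (φ : A →ₐ[k] _).comp p with hp'
  have hs : Function.Surjective p' := φ.surjective.comp hp
  have kp' : ∀ f, p' f = 0 ↔ rel (FF k) ∣ f := fun f => by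
    rw [← kp]; exact φ.map_eq_zero_iff
  have h1 : ∃ i, ∀ f, p' (rename Fin.succ f) ≠ X i := by
    by_contra h
    push Not at h
    have h2 : ∀ b, ∃ f, p' (rename Fin.succ f) = b := by
      intro b
      induction b using MvPolynomial.induction_on with
      | C a => exact ⟨C a, by simp⟩
      | add u v hu hv =>
        obtain ⟨f, hf⟩ := hu
        obtain ⟨g, hg⟩ := hv
        exact ⟨f + g, by rw [map_add, map_add, hf, hg]⟩
      | mul_X u i hu =>
        obtain ⟨f, hf⟩ := hu
        obtain ⟨g, hg⟩ := h i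
        exact ⟨f * g, by rw [map_mul, map_mul, hf, hg]⟩
    obtain ⟨f, hf⟩ := h2 (p' (X 0))
    have h3 : rel (FF k) ∣ X 0 - rename Fin.succ f := (kp' _).1 (by rw [map_sub, hf, sub_self])
    have h4 : Red (X 0 - rename Fin.succ f : MvPolynomial (Fin 4) k) := by
      classical
      intro c hc
      rcases Finset.mem_union.1 (support_sub _ _ _ hc) with h5 | h5
      · exact red_X0 c h5
      · exact red_rename f c h5
    refine h4.not_dvd ?_ _ h3
    intro h5
    have h6 := supp_rename f (Finsupp.single 0 1) (by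
      rw [← sub_eq_zero.1 h5, support_X]; simp)
    simp at h6
  obtain ⟨i, hi⟩ := h1
  obtain ⟨j, hj⟩ : ∃ j : Fin 3, i ≠ j := ⟨i + 1, by fin_cases i <;> decide⟩
  have h7 := asanuma_rigid p' hs kp' _ (transl_ga j) (X i) (by simp [hj]) hi
  set e : MvPolynomial (Fin 3) k →ₐ[k] Polynomial (MvPolynomial (Fin 3) k) :=
    aeval (fun i : Fin 3 => Polynomial.C (X i) + if i = j then Polynomial.X else 0) with he
  have h8 : ∀ f, e (p' f) = Polynomial.C (p' f) := by
    intro f
    induction f using MvPolynomial.induction_on with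
    | C a => simp [Polynomial.algebraMap_apply]
    | add u v hu hv => rw [map_add, map_add, hu, hv, map_add]
    | mul_X u i hu => rw [map_mul, map_mul, hu, h7, map_mul]
  obtain ⟨f, hf⟩ := hs (X j)
  have h9 := h8 f
  rw [hf, he] at h9
  simp at h9

end Pool.Agent.H705Z.Expo
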