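import Mathlib

set_option autoImplicit false

namespace Pool.Agent.H705Z.Expo

open Polynomial

/-- An action of the additive group on the `k`-algebra `B`: an algebra map `e` from `B` to `B[T]`
such that, writing `e b = sum b_i T^i`, one has `b_0 = b` and
`sum e(b_i) U^i = sum b_i (T+U)^i` in `B[T][U]`. -/
def IsGaAction {k B : Type*} [CommRing k] [CommRing B] [Algebra k B] (e : B →ₐ[k] B[X]) : Prop :=
  (∀ b : B, (e b).coeff 0 = b) ∧
  (∀ b : B, (e b).map (e : B →+* B[X]) =
    (e b).eval₂ ((C : B[X] →+* B[X][X]).comp (C : B →+* B[X])) (C X + X))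

/-- An automorphism is exponential if it is obtained from an additive group action by
substituting an invariant element for `T`. -/
def IsExponential {k B : Type*} [CommRing k] [CommRing B] [Algebra k B] (φ : B ≃ₐ[k] B) : Prop :=
  ∃ (e : B →ₐ[k] B[X]) (a : B), IsGaAction e ∧ e a = C a ∧ ∀ b : B, φ b = (e b).eval a

end Pool.Agent.H705Z.Expo
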