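import Pool.Agent.H705Z.ExpDefs

set_option autoImplicit false

namespace Pool.Agent.H705Z.Expo

open Polynomial

variable {k B : Type*} [CommRing k] [CommRing B] [Algebra k B]

theorem rhs_eq (f : B[X]) :
    f.eval₂ ((C : B[X] →+* B[X][X]).comp (C : B →+* B[X])) (C X + X) =
      taylor (X : B[X]) (f.map (C : B →+* B[X])) := by
  rw [taylor_apply, comp, eval₂_map, add_comm]

theorem IsGaAction.lead {e : B →ₐ[k] B[X]} (he : IsGaAction e) (b : B) :
    e (e b).leadingCoeff = C (e b).leadingCoeff := by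
  have h := congrArg (fun q : B[X][X] => q.coeff (e b).natDegree) (he.2 b)
  simp only [coeff_map] at h
  rw [rhs_eq] at h
  have hd : (taylor (X : B[X]) ((e b).map (C : B →+* B[X]))).natDegree = (e b).natDegree := by
    rw [natDegree_taylor, natDegree_map_eq_of_injective C_injective]
  have hl : (taylor (X : B[X]) ((e b).map (C : B →+* B[X]))).leadingCoeff
      = C (e b).leadingCoeff := by
    rw [leadingCoeff_taylor, leadingCoeff_map_of_injective C_injective]
  rw [← hd] at h
  have : (taylor (X : B[X]) ((e b).map (C : B →+* B[X]))).coeff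
      (taylor (X : B[X]) ((e b).map (C : B →+* B[X]))).natDegree = C (e b).leadingCoeff := hl
  rw [this, hd] at h
  exact h

theorem IsGaAction.eq_C_of_natDegree {e : B →ₐ[k] B[X]} (he : IsGaAction e) {b : B}
    (h : (e b).natDegree = 0) : e b = C b := by
  rw [eq_C_of_natDegree_eq_zero h, he.1]

theorem IsGaAction.ne_zero {e : B →ₐ[k] B[X]} (he : IsGaAction e) {b : B} (hb : b ≠ 0) :
    e b ≠ 0 := by
  intro h
  apply hb
  rw [← he.1 b, h, coeff_zero]

theorem IsGaAction.inv_of_dvd [IsDomain B] {e : B →ₐ[k] B[X]} (he : IsGaAction e) {c : B}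
    (hc : c ≠ 0) (h : C c ∣ e c) : e c = C c := by
  apply he.eq_C_of_natDegree
  have h1 : c ∣ (e c).leadingCoeff := (C_dvd_iff_dvd_coeff c (e c)).1 h _
  obtain ⟨q, hq⟩ := h1
  have hl : (e c).leadingCoeff ≠ 0 := leadingCoeff_ne_zero.2 (he.ne_zero hc)
  have hq0 : q ≠ 0 := by
    rintro rfl
    exact hl (by rw [hq, mul_zero])
  have h2 := he.lead c
  rw [hq, map_mul] at h2
  have h3 := congrArg natDegree h2
  rw [natDegree_mul (he.ne_zero hc) (he.ne_zero hq0), natDegree_C] at h3
  omega

theorem IsGaAction.inv_of_mul [IsDomain B] {e : B →ₐ[k] B[X]} (he : IsGaAction e) {u v : B}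
    (hu : u ≠ 0) (hv : v ≠ 0) (h : e (u * v) = C (u * v)) : e u = C u ∧ e v = C v := by
  have h3 := congrArg natDegree h
  rw [map_mul, natDegree_mul (he.ne_zero hu) (he.ne_zero hv), natDegree_C] at h3
  exact ⟨he.eq_C_of_natDegree (by omega), he.eq_C_of_natDegree (by omega)⟩

theorem IsGaAction.comm {e : B →ₐ[k] B[X]} (he : IsGaAction e) {a : B} (ha : e a = C a)
    (φ : B →+* B) (hφ : ∀ b : B, φ b = (e b).eval a) (b : B) :
    e (φ b) = (e b).map φ := by
  have h1 : e (φ b) = ((e b).map (e : B →+* B[X])).eval (C a) := by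
    rw [hφ, eval_map, ← ha]
    exact (eval₂_at_apply (e : B →+* B[X]) a).symm
  have h2 : (e b).map φ = ((e b).map (e : B →+* B[X])).map (evalRingHom a) := by
    rw [Polynomial.map_map]
    congr 1
    ext b'
    simp [hφ]
  rw [h1, h2, he.2 b]
  have e1 := hom_eval₂ (e b) ((C : B[X] →+* B[X][X]).comp (C : B →+* B[X]))
    (evalRingHom (C a : B[X])) (C X + X)
  have e2 := hom_eval₂ (e b) ((C : B[X] →+* B[X][X]).comp (C : B →+* B[X]))
    (mapRingHom (evalRingHom a)) (C X + X)
  simp only [coe_evalRingHom, coe_mapRingHom] at e1 e2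
  rw [e1, e2]
  congr 1
  · ext b' <;> simp
  · simp [add_comm]

end Pool.Agent.H705Z.Expo
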