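import Pool.Agent.H705Z.ExpGen

set_option autoImplicit false

namespace Pool.Agent.H705Z.Expo

open MvPolynomial

variable (k : Type*) [Field k] (p : ℕ) (m : ℕ)

/-- The polynomial ring. -/
abbrev R := MvPolynomial (Fin (m + 3)) k

noncomputable def vx : R k m := X 0
noncomputable def vy : R k m := X 1
noncomputable def vz : R k m := X 2
noncomputable def gg : R k m := vx k m * vz k m + vy k m ^ p - vy k m
noncomputable def hh : R k m := 1 + gg k p m + vx k m * gg k p m
noncomputable def cc : R k m := 1 + vx k m * hh k p m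
noncomputable def ww : R k m := vx k m ^ (p - 1) * hh k p m ^ p - hh k p m

noncomputable def img (j : ℤ) (i : Fin (m + 3)) : R k m :=
  if i = 1 then X 1 + (j : R k m) * cc k p m
  else if i = 2 then X 2 - (j : R k m) * ww k p m else X i

noncomputable def psi (j : ℤ) : R k m →ₐ[k] R k m := aeval (img k p m j)

theorem h01 : (0 : Fin (m + 3)) ≠ 1 := by simp
theorem h02 : (0 : Fin (m + 3)) ≠ 2 := by
  simp only [ne_eq, Fin.ext_iff]
  rw [Fin.val_zero, Fin.val_two]; omega
theorem h21 : (2 : Fin (m + 3)) ≠ 1 := by
  simp only [ne_eq, Fin.ext_iff]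
  rw [Fin.val_one, Fin.val_two]; omega

theorem psi_x (j : ℤ) : psi k p m j (vx k m) = vx k m := by
  simp [psi, vx, img, h01 m, h02 m]

theorem psi_y (j : ℤ) : psi k p m j (vy k m) = vy k m + (j : R k m) * cc k p m := by
  simp [psi, vy, img]

theorem psi_z (j : ℤ) : psi k p m j (vz k m) = vz k m - (j : R k m) * ww k p m := by
  simp [psi, vz, img, h21 m]

variable [hp : Fact p.Prime] [CharP k p]

theorem cc_pow : cc k p m ^ p - cc k p m = vx k m * ww k p m := by
  have h1 : cc k p m ^ p = 1 + vx k m ^ p * hh k p m ^ p := by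
    rw [cc, add_pow_char, one_pow, mul_pow]
  have h2 : vx k m ^ p = vx k m * vx k m ^ (p - 1) := by
    rw [← pow_succ', Nat.sub_add_cancel hp.out.one_le]
  rw [h1, h2, ww, cc]; ring

theorem int_pow (j : ℤ) : (j : R k m) ^ p = j := by
  have := map_intCast (frobenius (R k m) p) j
  rwa [frobenius_def] at this

theorem psi_g (j : ℤ) : psi k p m j (gg k p m) = gg k p m := by
  have h := cc_pow k p m
  rw [gg, map_sub, map_add, map_mul, map_pow, psi_x, psi_y, psi_z, add_pow_char, mul_pow,
    int_pow]
  linear_combination (j : R k m) * h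

theorem psi_h (j : ℤ) : psi k p m j (hh k p m) = hh k p m := by
  rw [hh, map_add, map_add, map_mul, map_one, psi_g, psi_x]

theorem psi_c (j : ℤ) : psi k p m j (cc k p m) = cc k p m := by
  rw [cc, map_add, map_mul, map_one, psi_h, psi_x]

theorem psi_w (j : ℤ) : psi k p m j (ww k p m) = ww k p m := by
  rw [ww, map_sub, map_mul, map_pow, map_pow, psi_h, psi_x]

theorem psi_comp (i j : ℤ) : (psi k p m i).comp (psi k p m j) = psi k p m (i + j) := by
  apply MvPolynomial.algHom_ext
  intro t
  by_cases h1 : t = 1
  · subst h1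
    change psi k p m i (psi k p m j (vy k m)) = psi k p m (i + j) (vy k m)
    rw [psi_y, psi_y, map_add, map_mul, map_intCast, psi_y, psi_c]
    push_cast; ring
  by_cases h2 : t = 2
  · subst h2
    change psi k p m i (psi k p m j (vz k m)) = psi k p m (i + j) (vz k m)
    rw [psi_z, psi_z, map_sub, map_mul, map_intCast, psi_z, psi_w]
    push_cast; ring
  · simp [psi, img, h1, h2]

omit hp [CharP k p] in
theorem psi_of_zero (j : ℤ) (hj : (j : R k m) = 0) : psi k p m j = AlgHom.id k (R k m) := by
  apply MvPolynomial.algHom_ext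
  intro t
  by_cases h1 : t = 1
  · subst h1; simp [psi, img, hj]
  by_cases h2 : t = 2
  · subst h2; simp [psi, img, hj, h21 m]
  · simp [psi, img, h1, h2]

/-- The automorphism. -/
noncomputable def phi : R k m ≃ₐ[k] R k m :=
  AlgEquiv.ofAlgHom (psi k p m 1) (psi k p m (-1))
    (by rw [psi_comp]; exact psi_of_zero k p m _ (by simp))
    (by rw [psi_comp]; exact psi_of_zero k p m _ (by simp))

theorem phi_apply (b : R k m) : phi k p m b = psi k p m 1 b := rfl

theorem phi_pow (j : ℕ) (b : R k m) : (phi k p m ^ j) b = psi k p m j b := by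
  induction j generalizing b with
  | zero => rw [psi_of_zero k p m _ (by simp)]; simp
  | succ j ih =>
    rw [pow_succ, AlgEquiv.mul_apply, ih, phi_apply]
    have := congrArg (fun f => f b) (psi_comp k p m j 1)
    simpa using this

/-- Setting the first variable equal to zero. -/
noncomputable def red : R k m →ₐ[k] R k m := aeval (fun i => if i = 0 then 0 else X i)

omit hp [CharP k p] in
theorem red_x : red k m (vx k m) = 0 := by simp [red, vx]

omit hp [CharP k p] in
theorem red_c : red k m (cc k p m) = 1 := by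
  rw [cc, map_add, map_mul, red_x, map_one]; ring

omit hp [CharP k p] in
theorem cc_ne : cc k p m ≠ 0 := by
  intro h
  have := red_c k p m
  rw [h, map_zero] at this
  exact zero_ne_one this

omit hp [CharP k p] in
theorem vx_ne : vx k m ≠ 0 := X_ne_zero _

theorem orderOf_phi : orderOf (phi k p m) = p := by
  apply orderOf_eq_prime
  · ext1 b
    rw [phi_pow, psi_of_zero k p m _ (by simp)]
    rfl
  · intro h
    have h1 : phi k p m (vy k m) = vy k m := by rw [h]; rfl
    rw [phi_apply, psi_y] at h1
    apply cc_ne k p m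
    simpa using h1

theorem cc_dvd_ww : cc k p m ∣ ww k p m := by
  have h1 : vx k m ∣ cc k p m ^ (p - 1) - 1 := by
    have : cc k p m - 1 ∣ cc k p m ^ (p - 1) - 1 ^ (p - 1) := sub_dvd_pow_sub_pow _ _ _
    rw [one_pow] at this
    refine dvd_trans ?_ this
    exact ⟨hh k p m, by rw [cc]; ring⟩
  obtain ⟨q, hq⟩ := h1
  refine ⟨q, mul_left_cancel₀ (vx_ne k m) ?_⟩
  have h2 : cc k p m ^ p = cc k p m * cc k p m ^ (p - 1) := by
    rw [← pow_succ', Nat.sub_add_cancel hp.out.one_le]
  rw [← cc_pow, h2]
  linear_combination (cc k p m) * hq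

theorem cc_dvd (b : R k m) : cc k p m ∣ psi k p m 1 b - b := by
  induction b using MvPolynomial.induction_on with
  | C a => simp [psi]
  | add u v hu hv =>
    have : psi k p m 1 (u + v) - (u + v) = (psi k p m 1 u - u) + (psi k p m 1 v - v) := by
      rw [map_add]; ring
    rw [this]; exact dvd_add hu hv
  | mul_X u t hu =>
    have ht : cc k p m ∣ psi k p m 1 (X t) - X t := by
      by_cases h1 : t = 1
      · subst h1
        change cc k p m ∣ psi k p m 1 (vy k m) - vy k m
        rw [psi_y]; simp
      by_cases h2 : t = 2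
      · subst h2
        change cc k p m ∣ psi k p m 1 (vz k m) - vz k m
        rw [psi_z]; simpa using cc_dvd_ww k p m
      · simp [psi, img, h1, h2]
    have : psi k p m 1 (u * X t) - u * X t =
        (psi k p m 1 u - u) * psi k p m 1 (X t) + u * (psi k p m 1 (X t) - X t) := by
      rw [map_mul]; ring
    rw [this]
    exact dvd_add (dvd_mul_of_dvd_left hu _) (dvd_mul_of_dvd_right ht _)

theorem not_exp : ¬ IsExponential (phi k p m) := by
  rintro ⟨e, a, he, ha, hφ⟩
  have hcomm := he.comm ha (psi k p m 1 : R k m →+* R k m) (fun b => hφ b) (vy k m)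
  have hc : e (cc k p m) = Polynomial.C (cc k p m) := by
    apply he.inv_of_dvd (cc_ne k p m)
    have h1 : e (cc k p m) =
        (e (vy k m)).map (psi k p m 1 : R k m →+* R k m) - e (vy k m) := by
      rw [← hcomm, ← map_sub]
      congr 1
      change _ = psi k p m 1 (vy k m) - _
      rw [psi_y]; simp
    rw [h1, Polynomial.C_dvd_iff_dvd_coeff]
    intro i
    rw [Polynomial.coeff_sub, Polynomial.coeff_map]
    exact cc_dvd k p m _
  have hfac : cc k p m = (1 + vx k m) * (1 + vx k m * gg k p m) := by
    rw [cc, hh]; ring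
  have hn1 : 1 + vx k m ≠ 0 := by
    intro h; apply cc_ne k p m; rw [hfac, h, zero_mul]
  have hn2 : 1 + vx k m * gg k p m ≠ 0 := by
    intro h; apply cc_ne k p m; rw [hfac, h, mul_zero]
  rw [hfac] at hc
  obtain ⟨h1, h2⟩ := he.inv_of_mul hn1 hn2 hc
  have hx : e (vx k m) = Polynomial.C (vx k m) := by
    rw [map_add, map_add, map_one, map_one] at h1
    exact add_left_cancel h1
  have hg : e (gg k p m) = Polynomial.C (gg k p m) := by
    rw [map_add, map_add, map_one, map_one, map_mul, map_mul, hx] at h2
    exact mul_left_cancel₀ (Polynomial.C_ne_zero.2 (vx_ne k m)) (add_left_cancel h2)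
  set u : Polynomial (R k m) := e (vy k m) - Polynomial.C (vy k m) with hu
  have hu0 : u.coeff 0 = 0 := by
    rw [hu, Polynomial.coeff_sub, he.1, Polynomial.coeff_C_zero, sub_self]
  have hup : u ^ p - u = Polynomial.C (vx k m) * (Polynomial.C (vz k m) - e (vz k m)) := by
    rw [gg, map_sub, map_add, map_mul, map_pow, hx, map_sub, map_add, map_mul, map_pow] at hg
    rw [hu, sub_pow_char]
    linear_combination hg
  set u' : Polynomial (R k m) := u.map (red k m : R k m →+* R k m) with hu'
  have hup' : u' ^ p - u' = 0 := by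
    have := congrArg (Polynomial.map (red k m : R k m →+* R k m)) hup
    rw [Polynomial.map_sub, Polynomial.map_pow, Polynomial.map_mul, Polynomial.map_C] at this
    rw [hu', this]
    change Polynomial.C (red k m (vx k m)) * _ = 0
    rw [red_x]; simp
  have hu'0 : u'.coeff 0 = 0 := by rw [hu', Polynomial.coeff_map, hu0, map_zero]
  have hz : u' = 0 := by
    have h3 : u' * (u' ^ (p - 1) - 1) = 0 := by
      rw [mul_sub, ← pow_succ', Nat.sub_add_cancel hp.out.one_le, mul_one, hup']
    rcases mul_eq_zero.1 h3 with h4 | h4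
    · exact h4
    · exfalso
      have h5 := congrArg (Polynomial.eval 0) h4
      rw [Polynomial.eval_sub, Polynomial.eval_pow, ← Polynomial.coeff_zero_eq_eval_zero, hu'0,
        zero_pow (by have := hp.out.two_le; omega)] at h5
      simp at h5
  have h6 : u.eval a = cc k p m := by
    rw [hu, Polynomial.eval_sub, ← hφ, phi_apply, psi_y, Polynomial.eval_C]; simp
  have h7 : red k m (u.eval a) = u'.eval (red k m a) := by
    rw [hu', Polynomial.eval_map]
    exact (Polynomial.eval₂_at_apply (red k m : R k m →+* R k m) a).symm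
  rw [h6, red_c, hz, Polynomial.eval_zero] at h7
  exact one_ne_zero h7

end Pool.Agent.H705Z.Expo
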