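import Pool.Agent.H705Z.ExpDefs

set_option autoImplicit false

namespace Pool.Agent.H705Z.Expo

/-- The ring of invariants of an automorphism. -/
def fixedRing {k B : Type*} [CommRing k] [CommRing B] [Algebra k B] (φ : B ≃ₐ[k] B) :
    Subalgebra k B :=
  AlgHom.equalizer (φ : B →ₐ[k] B) (AlgHom.id k B)

/-- The plinth ideal: the invariants of the form `φ b - b`. -/
def plinth {k B : Type*} [CommRing k] [CommRing B] [Algebra k B] (φ : B ≃ₐ[k] B) :
    Ideal (fixedRing φ) where
  carrier := {a | ∃ b : B, φ b - b = (a : B)}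
  add_mem' := by
    rintro a a' ⟨b, hb⟩ ⟨b', hb'⟩
    exact ⟨b + b', by rw [map_add, Subalgebra.coe_add, ← hb, ← hb']; ring⟩
  zero_mem' := ⟨0, by simp⟩
  smul_mem' := by
    rintro c a ⟨b, hb⟩
    have hc : φ (c : B) = c := c.2
    exact ⟨c * b, by rw [map_mul, hc, smul_eq_mul, Subalgebra.coe_mul, ← hb]; ring⟩

end Pool.Agent.H705Z.Expo
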