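import Pool.Agent.H705Z.AsNP
import Pool.Agent.H705Z.PlDefs

set_option autoImplicit false
set_option linter.all false

namespace Pool.Agent.H705Z.Expo.Pl

open MvPolynomial

theorem a2_homs {k R : Type*} [CommRing k] [CommRing R] [Algebra k R]
    (e : R →ₐ[k] Polynomial R) : ∃ u v : R →+* Polynomial (Polynomial R),
    (∀ b, u b = (e b).map (e : R →+* Polynomial R)) ∧
    (∀ b, v b = (e b).eval₂ ((Polynomial.C : Polynomial R →+* Polynomial (Polynomial R)).comp
      (Polynomial.C : R →+* Polynomial R)) (Polynomial.C Polynomial.X + Polynomial.X)) :=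
  ⟨(Polynomial.mapRingHom (e : R →+* Polynomial R)).comp (e : R →+* Polynomial R),
    (Polynomial.eval₂RingHom ((Polynomial.C : Polynomial R →+* Polynomial (Polynomial R)).comp
      (Polynomial.C : R →+* Polynomial R)) (Polynomial.C Polynomial.X + Polynomial.X)).comp
      (e : R →+* Polynomial R), fun _ => rfl, fun _ => rfl⟩

variable (k : Type*) [Field k]

/-- The polynomial ring in three variables. -/
abbrev B := MvPolynomial (Fin 3) k

noncomputable def x : B k := X 0
noncomputable def n : B k := X 1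
noncomputable def s : B k := X 2
noncomputable def t : B k := x k * n k + s k ^ 2
noncomputable def z : B k := s k + t k ^ 3
noncomputable def ta : B k := t k ^ 2 + x k ^ 2 * t k
noncomputable def nu : B k :=
  n k ^ 2 + t k + x k ^ 2 * t k ^ 10 + x k ^ 6 * t k ^ 8 + x k ^ 10 * t k ^ 6
noncomputable def g : B k := n k + x k * (ta k ^ 2 + x k ^ 8) * t k
noncomputable def al : B k := z k ^ 2 + ta k ^ 3 + x k ^ 4 * ta k ^ 2 + x k ^ 8 * ta k

noncomputable def qq : Polynomial (B k) :=
  Polynomial.C (t k) ^ 2 * Polynomial.X + Polynomial.C (x k) ^ 2 * Polynomial.C (t k) *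
    Polynomial.X ^ 2 + Polynomial.C (x k) ^ 4 * Polynomial.X ^ 3

/-- The additive group action. -/
noncomputable def e : B k →ₐ[k] Polynomial (B k) :=
  aeval ![Polynomial.C (x k),
    Polynomial.C (n k) + Polynomial.C (x k) * Polynomial.X + Polynomial.C (x k) ^ 3 * qq k ^ 2,
    Polynomial.C (s k) + Polynomial.C (x k) ^ 2 * qq k]

theorem e_x : e k (x k) = Polynomial.C (x k) := by simp [e, x]

theorem e_n : e k (n k) = Polynomial.C (n k) + Polynomial.C (x k) * Polynomial.X +
    Polynomial.C (x k) ^ 3 * qq k ^ 2 := by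
  conv_lhs => rw [n]
  simp [e]

theorem e_s : e k (s k) = Polynomial.C (s k) + Polynomial.C (x k) ^ 2 * qq k := by
  conv_lhs => rw [s]
  simp [e]

theorem x_ne : x k ≠ 0 := X_ne_zero _

variable [CharP k 2]

theorem two0 : (2 : B k) = 0 := CharTwo.two_eq_zero

theorem two1 : (2 : Polynomial (B k)) = 0 := CharTwo.two_eq_zero

theorem e_t : e k (t k) = Polynomial.C (t k) + Polynomial.C (x k) ^ 2 * Polynomial.X := by
  have h : Polynomial.C (t k) = Polynomial.C (x k) * Polynomial.C (n k) + Polynomial.C (s k) ^ 2 := by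
    rw [t]; simp
  conv_lhs => rw [t]
  rw [map_add, map_mul, map_pow, e_x, e_n, e_s, h]
  linear_combination (Polynomial.C (x k) ^ 4 * qq k ^ 2 +
    Polynomial.C (s k) * Polynomial.C (x k) ^ 2 * qq k) * two1 k

theorem e_z : e k (z k) = Polynomial.C (z k) := by
  rw [z, map_add, map_pow, e_s, e_t, map_add, map_pow, qq]
  have := two1 k
  grind

theorem hom_ext {T : Type*} [CommRing T] [IsDomain T] (u v : B k →+* T)
    (hC : ∀ c, u (C c) = v (C c)) (hx : u (x k) = v (x k)) (hx0 : u (x k) ≠ 0)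
    (ht : u (t k) = v (t k)) (hz : u (z k) = v (z k)) : u = v := by
  have hs : u (s k) = v (s k) := by
    have : s k = z k - t k ^ 3 := by rw [z]; ring
    rw [this, map_sub, map_sub, map_pow, map_pow, ht, hz]
  have hn : u (n k) = v (n k) := by
    apply mul_left_cancel₀ hx0
    have : x k * n k = t k - s k ^ 2 := by rw [t]; ring
    conv_rhs => rw [hx]
    rw [← map_mul, ← map_mul, this, map_sub, map_sub, map_pow, map_pow, ht, hs]
  apply MvPolynomial.ringHom_ext hC
  intro i
  fin_cases i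
  · exact hx
  · exact hn
  · exact hs

theorem e_C (c : k) : e k (C c) = Polynomial.C (C c) := by
  simp [e]

theorem e_ga : IsGaAction (e k) := by
  constructor
  · have := hom_ext k ((Polynomial.constantCoeff).comp (e k : B k →+* Polynomial (B k)))
      (RingHom.id _) (fun c => by simp [e_C]) (by simp [e_x]) (by simp [e_x, x_ne])
      (by simp [e_t]) (by simp [e_z])
    intro b
    exact congrArg (fun f => f b) this
  · obtain ⟨u, v, hu, hv⟩ := a2_homs (e k)
    have := hom_ext k u v (fun c => by rw [hu, hv, e_C]; simp [e_C])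
      (by rw [hu, hv, e_x]; simp [e_x]) (by rw [hu, e_x]; simp [e_x, x_ne])
      (by
        rw [hu, hv, e_t, Polynomial.eval₂_add, Polynomial.eval₂_mul, Polynomial.eval₂_pow]
        simp [e_t, e_x]; ring)
      (by rw [hu, hv, e_z]; simp [e_z])
    intro b
    rw [← hu, ← hv, this]

/-- The automorphism as an endomorphism. -/
noncomputable def ps : B k →ₐ[k] B k := (Polynomial.aeval (1 : B k)).restrictScalars k |>.comp (e k)

theorem ps_apply (b : B k) : ps k b = (e k b).eval 1 := by
  simp [ps, Polynomial.coe_aeval_eq_eval]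

theorem ps_x : ps k (x k) = x k := by rw [ps_apply, e_x]; simp

theorem ps_t : ps k (t k) = t k + x k ^ 2 := by rw [ps_apply, e_t]; simp

theorem ps_z : ps k (z k) = z k := by rw [ps_apply, e_z]; simp

theorem ps_ps : (ps k).comp (ps k) = AlgHom.id k (B k) := by
  apply AlgHom.coe_ringHom_injective
  apply hom_ext k
  · intro c; simp [ps_apply, e_C]
  · simp [ps_x]
  · simp [ps_x, x_ne]
  · simp only [AlgHom.coe_toRingHom, AlgHom.coe_comp, Function.comp_apply, ps_t, map_add, map_pow,
      ps_x, AlgHom.coe_id, id_eq]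
    linear_combination (x k ^ 2) * two0 k
  · simp [ps_z]

/-- The automorphism. -/
noncomputable def phi : B k ≃ₐ[k] B k := AlgEquiv.ofAlgHom (ps k) (ps k) (ps_ps k) (ps_ps k)

theorem phi_exp : IsExponential (phi k) :=
  ⟨e k, 1, e_ga k, by simp, fun b => ps_apply k b⟩

theorem ps_ta : ps k (ta k) = ta k := by
  rw [ta, map_add, map_mul, map_pow, map_pow, ps_t, ps_x]
  linear_combination (x k ^ 4 + x k ^ 2 * t k) * two0 k

theorem rel_nu : nu k * x k ^ 2 = z k ^ 4 + ta k + ta k ^ 6 := by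
  have h1 : x k * n k = t k - s k ^ 2 := by rw [t]; ring
  have h2 : nu k * x k ^ 2 = (x k * n k) ^ 2 + x k ^ 2 * (t k + x k ^ 2 * t k ^ 10 +
      x k ^ 6 * t k ^ 8 + x k ^ 10 * t k ^ 6) := by rw [nu]; ring
  rw [h2, h1, z, ta]
  have := two0 k
  grind

theorem ps_nu : ps k (nu k) = nu k := by
  apply mul_right_cancel₀ (pow_ne_zero 2 (x_ne k))
  have := congrArg (ps k) (rel_nu k)
  rw [map_mul, map_pow, ps_x, map_add, map_add, map_pow, map_pow, ps_z, ps_ta] at this
  rw [this, rel_nu]

theorem al_eq : al k = t k + x k * g k := by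
  have h1 : x k * n k = t k - s k ^ 2 := by rw [t]; ring
  have h2 : x k * g k = x k * n k + x k ^ 2 * (ta k ^ 2 + x k ^ 8) * t k := by rw [g]; ring
  rw [h2, h1, al, z, ta]
  have := two0 k
  grind

theorem ps_al : ps k (al k) = al k := by
  simp only [al, map_add, map_mul, map_pow, ps_x, ps_z, ps_ta]

theorem ps_g : ps k (g k) = g k + x k := by
  apply mul_left_cancel₀ (x_ne k)
  have h := ps_al k
  rw [al_eq, map_add, map_mul, ps_t, ps_x] at h
  linear_combination h - (x k ^ 2) * two0 k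

theorem g_sq : g k ^ 2 = nu k + al k + x k ^ 6 * ta k ^ 4 + x k ^ 14 * ta k ^ 2 + x k * g k := by
  apply mul_left_cancel₀ (pow_ne_zero 2 (x_ne k))
  have h1 : x k * g k = al k - t k := by rw [al_eq]; ring
  have h2 : x k ^ 2 * g k ^ 2 = (x k * g k) ^ 2 := by ring
  have h3 : x k ^ 2 * (nu k + al k + x k ^ 6 * ta k ^ 4 + x k ^ 14 * ta k ^ 2 + x k * g k) =
      nu k * x k ^ 2 + x k ^ 2 * (al k + x k ^ 6 * ta k ^ 4 + x k ^ 14 * ta k ^ 2 + x k * g k) := by
    ring
  have h4 : t k ^ 2 = ta k - x k ^ 2 * t k := by rw [ta]; ring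
  rw [h2, h3, h1, rel_nu, al]
  have := two0 k
  generalize ta k = T at *
  grind

/-- The presentation of the invariant ring, as a map to `B`. -/
noncomputable def p0 : MvPolynomial (Fin 4) k →ₐ[k] B k := aeval ![nu k, ta k, x k, z k]

theorem ps_p0 (f : MvPolynomial (Fin 4) k) : ps k (p0 k f) = p0 k f := by
  have : (ps k).comp (p0 k) = p0 k := by
    apply MvPolynomial.algHom_ext
    intro i
    fin_cases i <;> simp [p0, ps_nu, ps_ta, ps_x, ps_z]
  exact congrArg (fun h => h f) this

theorem decomp (b : B k) : ∃ u v, b = p0 k u + p0 k v * g k := by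
  have hx : p0 k (X 2) = x k := by simp [p0]
  have hz : p0 k (X 3) = z k := by simp [p0]
  have hta : p0 k (X 1) = ta k := by simp [p0]
  have hnu : p0 k (X 0) = nu k := by simp [p0]
  obtain ⟨a, ha⟩ : ∃ a, p0 k a = al k :=
    ⟨X 3 ^ 2 + X 1 ^ 3 + X 2 ^ 4 * X 1 ^ 2 + X 2 ^ 8 * X 1, by simp [al, hx, hz, hta]⟩
  let S : Subalgebra k (B k) :=
    { carrier := {b | ∃ u v, b = p0 k u + p0 k v * g k}
      mul_mem' := by
        rintro b b' ⟨u, v, rfl⟩ ⟨u', v', rfl⟩
        refine ⟨u * u' + v * v' * (X 0 + a + X 2 ^ 6 * X 1 ^ 4 + X 2 ^ 14 * X 1 ^ 2),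
          u * v' + v * u' + v * v' * X 2, ?_⟩
        simp only [map_add, map_mul, map_pow, hx, hta, hnu, ha]
        linear_combination (p0 k v * p0 k v') * g_sq k
      add_mem' := by
        rintro b b' ⟨u, v, rfl⟩ ⟨u', v', rfl⟩
        exact ⟨u + u', v + v', by simp only [map_add]; ring⟩
      algebraMap_mem' := fun c => ⟨C c, 0, by simp⟩ }
  have mp : ∀ u, p0 k u ∈ S := fun u => ⟨u, 0, by simp⟩
  have mg : g k ∈ S := ⟨0, 1, by simp⟩
  have mx : x k ∈ S := hx ▸ mp _
  have mz : z k ∈ S := hz ▸ mp _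
  have mta : ta k ∈ S := hta ▸ mp _
  have mt : t k ∈ S := by
    have : t k = al k - x k * g k := by rw [al_eq]; ring
    rw [this]
    exact S.sub_mem (ha ▸ mp _) (S.mul_mem mx mg)
  have ms : s k ∈ S := by
    have : s k = z k - t k ^ 3 := by rw [z]; ring
    rw [this]
    exact S.sub_mem mz (S.pow_mem mt 3)
  have mn : n k ∈ S := by
    have : n k = g k - x k * (ta k ^ 2 + x k ^ 8) * t k := by rw [g]; ring
    rw [this]
    exact S.sub_mem mg (S.mul_mem (S.mul_mem mx (S.add_mem (S.pow_mem mta 2) (S.pow_mem mx 8))) mt)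
  change b ∈ S
  induction b using MvPolynomial.induction_on with
  | C c => exact S.algebraMap_mem c
  | add u v hu hv => exact S.add_mem hu hv
  | mul_X u i hu =>
    refine S.mul_mem hu ?_
    fin_cases i
    · exact mx
    · exact mn
    · exact ms

theorem delta (u v : MvPolynomial (Fin 4) k) :
    phi k (p0 k u + p0 k v * g k) - (p0 k u + p0 k v * g k) = p0 k v * x k := by
  change ps k _ - _ = _
  rw [map_add, map_mul, ps_p0, ps_p0, ps_g]; ring

/-- The presentation of the invariant ring. -/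
noncomputable def p1 : MvPolynomial (Fin 4) k →ₐ[k] fixedRing (phi k) :=
  (p0 k).codRestrict _ (fun f => ps_p0 k f)

theorem p1_surj : Function.Surjective (p1 k) := by
  rintro ⟨b, hb⟩
  obtain ⟨u, v, rfl⟩ := decomp k b
  have h1 := delta k u v
  have h2 : phi k (p0 k u + p0 k v * g k) = p0 k u + p0 k v * g k := hb
  rw [h2, sub_self] at h1
  have h3 : p0 k v = 0 := (mul_eq_zero.1 h1.symm).resolve_right (x_ne k)
  exact ⟨u, Subtype.ext (by change p0 k u = _; simp [h3])⟩

theorem plinth_principal : (plinth (phi k)).IsPrincipal := by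
  refine ⟨⟨p1 k (X 2), ?_⟩⟩
  have hx : ((p1 k (X 2) : fixedRing (phi k)) : B k) = x k := by
    change p0 k (X 2) = _; simp [p0]
  apply le_antisymm
  · rintro a ⟨b, hb⟩
    obtain ⟨u, v, rfl⟩ := decomp k b
    rw [delta] at hb
    rw [Submodule.mem_span_singleton]
    refine ⟨p1 k v, Subtype.ext ?_⟩
    rw [smul_eq_mul, Subalgebra.coe_mul, hx, ← hb]
    rfl
  · rw [Submodule.span_le, Set.singleton_subset_iff]
    refine ⟨g k, ?_⟩
    rw [hx]
    change ps k _ - _ = _
    rw [ps_g]; ring

/-- The substitution `t` to `t^2 + x^2 t`. -/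
noncomputable def ka : B k →ₐ[k] B k := aeval ![X 0 ^ 2 + X 1 ^ 2 * X 0, X 1, X 2]

omit [CharP k 2] in
theorem ka_inj {f : B k} (h : ka k f = 0) : f = 0 := by
  have h1 : ∀ f : B k, finSuccEquiv k 2 (ka k f) = (finSuccEquiv k 2 f).comp
      (Polynomial.X ^ 2 + Polynomial.C (X 0 ^ 2) * Polynomial.X) := by
    intro f
    have e1 : (X 1 : B k) = X (Fin.succ 0) := rfl
    have e2 : (X 2 : B k) = X (Fin.succ 1) := rfl
    induction f using MvPolynomial.induction_on with
    | C c => simp [ka, finSuccEquiv_apply]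
    | add u v hu hv => rw [map_add, map_add, map_add, hu, hv, Polynomial.add_comp]
    | mul_X u i hu =>
      rw [map_mul, map_mul, map_mul, hu, Polynomial.mul_comp]
      congr 1
      fin_cases i
      · have : ka k (X 0) = X 0 ^ 2 + X 1 ^ 2 * X 0 := by simp [ka]
        change finSuccEquiv k 2 (ka k (X 0)) = (finSuccEquiv k 2 (X 0)).comp _
        rw [this, map_add, map_mul, map_pow, map_pow, e1, finSuccEquiv_X_succ, finSuccEquiv_X_zero,
          Polynomial.X_comp, map_pow]
      · have : ka k (X 1) = X 1 := by simp [ka]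
        change finSuccEquiv k 2 (ka k (X 1)) = (finSuccEquiv k 2 (X 1)).comp _
        rw [this, e1, finSuccEquiv_X_succ, Polynomial.C_comp]
      · have : ka k (X 2) = X 2 := by simp [ka]
        change finSuccEquiv k 2 (ka k (X 2)) = (finSuccEquiv k 2 (X 2)).comp _
        rw [this, e2, finSuccEquiv_X_succ, Polynomial.C_comp]
  have h2 := h1 f
  rw [h, map_zero, eq_comm, Polynomial.comp_eq_zero_iff] at h2
  rcases h2 with h2 | ⟨-, h2⟩
  · exact (finSuccEquiv k 2).injective (by rw [h2, map_zero])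
  · have := congrArg (fun q => Polynomial.coeff q 2) h2
    simp only [Polynomial.coeff_add, Polynomial.coeff_C_mul, Polynomial.coeff_X_pow,
      Polynomial.coeff_X, Polynomial.coeff_C] at this
    simp at this

omit [CharP k 2] in
theorem p0_inj {f : B k} (h : p0 k (rename Fin.succ f) = 0) : f = 0 := by
  let K := FractionRing (B k)
  let j : B k →ₐ[k] K := IsScalarTower.toAlgHom k (B k) K
  have hj : Function.Injective j := IsFractionRing.injective (B k) K
  have hx0 : j (X 1) ≠ 0 := fun h => X_ne_zero (1 : Fin 3) (hj (by rw [h, map_zero]))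
  let ψ : B k →ₐ[k] K := aeval ![j (X 1),
    (j (X 0) - (j (X 2) - j (X 0) ^ 3) ^ 2) / j (X 1), j (X 2) - j (X 0) ^ 3]
  have hx : ψ (x k) = j (X 1) := by simp [ψ, x]
  have hn : ψ (n k) = (j (X 0) - (j (X 2) - j (X 0) ^ 3) ^ 2) / j (X 1) := by simp [ψ, n]
  have hs : ψ (s k) = j (X 2) - j (X 0) ^ 3 := by simp [ψ, s]
  have ht : ψ (t k) = j (X 0) := by
    rw [t, map_add, map_mul, map_pow, hx, hn, hs, mul_div_cancel₀ _ hx0]; ring
  have hz : ψ (z k) = j (X 2) := by
    rw [z, map_add, map_pow, hs, ht]; ring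
  have hta : ψ (ta k) = j (X 0) ^ 2 + j (X 1) ^ 2 * j (X 0) := by
    rw [ta, map_add, map_mul, map_pow, map_pow, ht, hx]
  have h1 : ψ.comp ((p0 k).comp (rename Fin.succ)) = j.comp (ka k) := by
    apply MvPolynomial.algHom_ext
    intro i
    fin_cases i
    · simp [p0, ka, hta]
    · simp [p0, ka, hx]
    · simp [p0, ka, hz]
  have h2 : ψ (p0 k (rename Fin.succ f)) = j (ka k f) := congrArg (fun h => h f) h1
  rw [h, map_zero] at h2
  exact ka_inj k (hj (by rw [← h2, map_zero]))

theorem p0_rel : p0 k (rel (FF k)) = 0 := by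
  have := rel_nu k
  simp only [rel, FF, p0, map_sub, map_add, map_mul, map_pow, rename_X, aeval_X]
  simpa [sub_eq_zero] using this

omit [CharP k 2] in
theorem clear_y (f : MvPolynomial (Fin 4) k) :
    ∃ (J : ℕ) (q : B k), rel (FF k) ∣ X 2 ^ J * f - rename Fin.succ q := by
  have e1 : rename Fin.succ (X 1 : B k) = (X 2 : MvPolynomial (Fin 4) k) := by simp
  induction f using MvPolynomial.induction_on with
  | C c => exact ⟨0, C c, by simp⟩
  | add u v hu hv =>
    obtain ⟨J, q, a, ha⟩ := hu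
    obtain ⟨J', q', a', ha'⟩ := hv
    refine ⟨J + J', X 1 ^ J' * q + X 1 ^ J * q', X 2 ^ J' * a + X 2 ^ J * a', ?_⟩
    rw [map_add, map_mul, map_mul, map_pow, map_pow, e1]
    linear_combination (X 2 ^ J') * ha + (X 2 ^ J) * ha'
  | mul_X u i hu =>
    obtain ⟨J, q, a, ha⟩ := hu
    refine Fin.cases ?_ (fun j => ?_) i
    · refine ⟨J + 2, q * FF k, a * (X 0 * X 2 ^ 2) + rename Fin.succ q, ?_⟩
      rw [map_mul]
      have : rename Fin.succ (FF k) = X 0 * X 2 ^ 2 - rel (FF k) := by rw [rel]; ring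
      rw [this]
      linear_combination (X 0 * X 2 ^ 2) * ha
    · refine ⟨J, q * X j, a * X j.succ, ?_⟩
      rw [map_mul, rename_X]
      linear_combination (X j.succ) * ha

theorem p1_ker (f : MvPolynomial (Fin 4) k) : p1 k f = 0 ↔ rel (FF k) ∣ f := by
  have h0 : p1 k f = 0 ↔ p0 k f = 0 := Subtype.ext_iff
  rw [h0]
  constructor
  · intro h
    obtain ⟨J, q, a, ha⟩ := clear_y k f
    have h1 := congrArg (p0 k) ha
    rw [map_sub, map_mul, h, map_mul, p0_rel, mul_zero, zero_mul, zero_sub, neg_eq_zero] at h1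
    rw [p0_inj k h1, map_zero, sub_zero] at ha
    rcases prime_FF.dvd_or_dvd (⟨a, ha⟩ : rel (FF k) ∣ X 2 ^ J * f) with h2 | h2
    · exfalso
      have h3 := prime_FF.dvd_of_dvd_pow h2
      have h4 : Red (X 2 : MvPolynomial (Fin 4) k) := by
        have := red_rename (X 1 : B k)
        simpa using this
      exact h4.not_dvd (X_ne_zero _) _ h3
    · exact h2
  · rintro ⟨a, rfl⟩
    rw [map_mul, p0_rel, zero_mul]

theorem not_poly : ¬ Nonempty (fixedRing (phi k) ≃ₐ[k] MvPolynomial (Fin 3) k) :=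
  asanuma_not_poly (p1 k) (p1_surj k) (p1_ker k)

end Pool.Agent.H705Z.Expo.Pl
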